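import Mathlib
import Pool.Agent.H617.SP.D
import Pool.Agent.H617.PF.B

/-!
All parities at once, with all values prime to the modulus.
-/

namespace Pool.Agent.H617.SP

set_option linter.unusedSectionVars false

open Polynomial

variable {K : Type*} [Field K] [Fintype K]

/-- Changing `Z` modulo a prime `P` exactly dividing the Wronskian changes the parity. -/
lemma flip_general (p : ℕ) [hp : Fact p.Prime] [CharP K p] (hp2 : p ≠ 2) (M N Z Y P T t : K[X]) (n : ℕ)
    (hn : 1 ≤ n) (c : K) (hc : c ^ ((Fintype.card K - 1) / 2) = -1) (hc0 : c ≠ 0)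
    (hM : M ≠ 0) (hMN : IsCoprime M N) (hT : wr M N ≠ 0) (hPT : wr M N = P * T)
    (hP : P.Monic) (hPodd : Odd P.natDegree)
    (hZm : (M * Z ^ p + N).Monic) (hZd : (M * Z ^ p + N).natDegree = n)
    (hYm : (M * Y ^ p + N).Monic) (hYd : (M * Y ^ p + N).natDegree = n)
    (hw : (Y ^ p - Z ^ p).natDegree + M.natDegree ≤ n)
    (hZ : IsCoprime (M * Z ^ p + N) (wr M N))
    (hdvd : T ∣ Y - Z) (ht : IsCoprime P t)
    (hdvdP : P ∣ (M * Y ^ p + N) - C c * (t ^ 2 * (M * Z ^ p + N))) :
    IsCoprime (M * Y ^ p + N) (wr M N) ∧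
    (-1 : K) ^ (om (M * Z ^ p + N) + om (M * Y ^ p + N)) = -1 := by
  have h2 : (2 : K) ≠ 0 := two_ne p hp2
  have hT0 : T ≠ 0 := by
    intro h
    rw [hPT, h, mul_zero] at hT
    exact hT rfl
  have hP0 : P ≠ 0 := hP.ne_zero
  obtain ⟨w, hw'⟩ : T ∣ M * (Y ^ p - Z ^ p) :=
    dvd_mul_of_dvd_right (hdvd.trans (sub_dvd_pow_sub_pow Y Z p)) _
  have h1 : M * Y ^ p + N = (M * Z ^ p + N) + T * w := by
    rw [← hw']; ring
  obtain ⟨v, hv⟩ := hdvdP
  have h1' : M * Y ^ p + N = C c * (t ^ 2 * (M * Z ^ p + N)) + P * v := by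
    rw [← hv]; ring
  have hZT : IsCoprime (M * Z ^ p + N) T := by
    rw [hPT] at hZ
    exact hZ.of_mul_right_right
  have hZP : IsCoprime (M * Z ^ p + N) P := by
    rw [hPT] at hZ
    exact hZ.of_mul_right_left
  have hYT : IsCoprime (M * Y ^ p + N) T := by
    rw [h1]
    exact hZT.add_mul_left_left _
  have hYP : IsCoprime (M * Y ^ p + N) P := by
    rw [h1']
    have h3 : IsCoprime (C c * (t ^ 2 * (M * Z ^ p + N))) P := by
      refine (isCoprime_mul_unit_left_left (isUnit_C.mpr (IsUnit.mk0 c hc0)) _ _).mpr ?_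
      exact (ht.symm.pow_left).mul_left hZP
    exact h3.add_mul_left_left _
  have hY : IsCoprime (M * Y ^ p + N) (wr M N) := by
    rw [hPT]
    exact hYP.mul_right hYT
  refine ⟨hY, ?_⟩
  rw [parity_compare p hp2 M N Z Y n hn hM hMN hT hZm hZd hYm hYd hw hZ hY]
  have hR : resultant (M * Y ^ p + N) T = resultant (M * Z ^ p + N) T := by
    by_cases hw0 : w = 0
    · rw [h1, hw0, mul_zero, add_zero]
    · have h3 : w.natDegree + T.natDegree ≤ n := by
        have h4 : (T * w).natDegree ≤ n := by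
          have h5 : T * w = (M * Y ^ p + N) - (M * Z ^ p + N) := by rw [h1]; ring
          rw [h5]
          exact (natDegree_sub_le _ _).trans (max_le hYd.le hZd.le)
        rw [natDegree_mul hT0 hw0] at h4
        omega
      have h4 := resultant_add_mul_left (M * Z ^ p + N) T w n T.natDegree h3 le_rfl
      rw [← h1] at h4
      have h5 : resultant (M * Y ^ p + N) T (M * Y ^ p + N).natDegree T.natDegree =
        resultant (M * Z ^ p + N) T (M * Z ^ p + N).natDegree T.natDegree := by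
        rw [hYd, hZd]
        exact h4
      exact h5
  have hZne : M * Z ^ p + N ≠ 0 := hZm.ne_zero
  have htne : t ^ 2 * (M * Z ^ p + N) ≠ 0 ∨ P = 1 := by
    by_cases ht0 : t = 0
    · right
      rw [ht0, isCoprime_zero_right] at ht
      exact hP.eq_one_of_isUnit ht
    · left
      exact mul_ne_zero (pow_ne_zero _ ht0) hZne
  have hP1 : P ≠ 1 := by
    intro h
    rw [h, natDegree_one] at hPodd
    exact absurd hPodd (by decide)
  have ht0 : t ≠ 0 := by
    rintro rfl
    rw [isCoprime_zero_right] at ht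
    exact hP1 (hP.eq_one_of_isUnit ht)
  obtain ⟨τ, hτ⟩ : ∃ τ, τ = resultant P t := ⟨_, rfl⟩
  have hτ0 : τ ≠ 0 := by rw [hτ]; exact res_ne_zero ht
  have hRP : resultant (M * Y ^ p + N) P =
      c ^ P.natDegree * (τ ^ 2 * resultant (M * Z ^ p + N) P) := by
    have h3 : resultant P (M * Y ^ p + N) =
        c ^ P.natDegree * (τ ^ 2 * resultant P (M * Z ^ p + N)) := by
      rw [h1', res_congr hP]
      have h4 := resultant_C_mul_right P (t ^ 2 * (M * Z ^ p + N)) P.natDegree
        (t ^ 2 * (M * Z ^ p + N)).natDegree c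
      have h5 : (C c * (t ^ 2 * (M * Z ^ p + N))).natDegree = (t ^ 2 * (M * Z ^ p + N)).natDegree :=
        natDegree_C_mul hc0
      have h6 : resultant P (C c * (t ^ 2 * (M * Z ^ p + N))) =
          resultant P (C c * (t ^ 2 * (M * Z ^ p + N))) P.natDegree
            (t ^ 2 * (M * Z ^ p + N)).natDegree := by
        rw [← h5]
      rw [h6, h4, res_mul (pow_ne_zero 2 ht0) hZne, pow_two, res_mul ht0 ht0, ← hτ, pow_two]
    rw [resultant_comm (M * Y ^ p + N) P, resultant_comm (M * Z ^ p + N) P, h3, hYd, hZd]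
    ring
  rw [hPT, res_mul hP0 hT0, res_mul hP0 hT0, hR, hRP]
  have e1 : resultant (M * Z ^ p + N) P * resultant (M * Z ^ p + N) T *
      (c ^ P.natDegree * (τ ^ 2 * resultant (M * Z ^ p + N) P) *
        resultant (M * Z ^ p + N) T) =
      c ^ P.natDegree *
        (τ * (resultant (M * Z ^ p + N) P * resultant (M * Z ^ p + N) T)) ^ 2 := by ring
  rw [e1, mul_pow, sq_half h2 _ (mul_ne_zero hτ0
    (mul_ne_zero (res_ne_zero hZP) (res_ne_zero hZT))), mul_one,
    ← pow_mul, mul_comm, pow_mul, hc, hPodd.neg_one_pow]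


/-- A residue which changes one sign and keeps all values invertible. -/
lemma exists_flip_residue (p : ℕ) [hp : Fact p.Prime] [CharP K p] (hp2 : p ≠ 2) {k : ℕ}
    (M N : Fin k → K[X]) (P G : K[X]) (c : K) (hc0 : c ≠ 0) (hP : Irreducible P) (hPm : P.Monic)
    (hPM : ∀ i, ¬ P ∣ M i) (hk : k < Fintype.card K ^ (P.natDegree - 1)) (j : Fin k)
    (hG : ¬ P ∣ G) :
    ∃ t s : K[X], IsCoprime P t ∧ P ∣ (M j * s ^ p + N j) - C c * (t ^ 2 * G) ∧
      ∀ i, ¬ P ∣ M i * s ^ p + N i := by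
  have hPd : 0 < P.natDegree := hP.natDegree_pos
  choose s hs using fun t : K[X] =>
    exists_root_mod p P (M j) (C c * (t ^ 2 * G) - N j) hP hPm (hPM j)
  have hs' : ∀ t, P ∣ (M j * (s t) ^ p + N j) - C c * (t ^ 2 * G) := by
    intro t
    have h1 := hs t
    have e : (M j * (s t) ^ p + N j) - C c * (t ^ 2 * G) =
        M j * (s t) ^ p - (C c * (t ^ 2 * G) - N j) := by ring
    rw [e]; exact h1
  have hpol : ∀ v : Fin (P.natDegree - 1) → K, ¬ P ∣ Pool.Agent.H617.PF.poly _ v := by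
    intro v h
    have h1 := natDegree_le_of_dvd h (Pool.Agent.H617.PF.poly_monic _ v).ne_zero
    rw [Pool.Agent.H617.PF.poly_natDegree] at h1
    omega
  by_contra hcon
  push Not at hcon
  have hbad : ∀ v : Fin (P.natDegree - 1) → K, ∃ i,
      P ∣ M i * (s (Pool.Agent.H617.PF.poly _ v)) ^ p + N i := by
    intro v
    exact hcon _ _ ((hP.coprime_iff_not_dvd).mpr (hpol v)) (hs' _)
  choose f hf using hbad
  have hinj : Function.Injective f := by
    intro v w hvw
    have h1 := hf v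
    have h2 := hf w
    rw [← hvw] at h2
    obtain ⟨x, hx⟩ : ∃ x, x = Pool.Agent.H617.PF.poly (P.natDegree - 1) v := ⟨_, rfl⟩
    obtain ⟨y, hy⟩ : ∃ y, y = Pool.Agent.H617.PF.poly (P.natDegree - 1) w := ⟨_, rfl⟩
    rw [← hx] at h1
    rw [← hy] at h2
    have h3 : P ∣ M (f v) * (s x) ^ p - M (f v) * (s y) ^ p := by
      have := dvd_sub h1 h2
      rwa [add_sub_add_right_eq_sub] at this
    have h4 : P ∣ s x - s y := dvd_of_pow_sub p hP (hPM _) h3
    have h5 : P ∣ (s x) ^ p - (s y) ^ p := h4.trans (sub_dvd_pow_sub_pow _ _ p)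
    have h6 : P ∣ C c * ((x - y) * ((x + y) * G)) := by
      have e : C c * ((x - y) * ((x + y) * G)) =
          ((M j * (s y) ^ p + N j) - C c * (y ^ 2 * G)) -
            ((M j * (s x) ^ p + N j) - C c * (x ^ 2 * G)) + M j * ((s x) ^ p - (s y) ^ p) := by
        ring
      rw [e]
      exact dvd_add (dvd_sub (hs' y) (hs' x)) (dvd_mul_of_dvd_right h5 _)
    have hxm : x.Monic := by rw [hx]; exact Pool.Agent.H617.PF.poly_monic _ v
    have hym : y.Monic := by rw [hy]; exact Pool.Agent.H617.PF.poly_monic _ w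
    have hxd : x.natDegree = P.natDegree - 1 := by
      rw [hx]; exact Pool.Agent.H617.PF.poly_natDegree _ v
    have hyd : y.natDegree = P.natDegree - 1 := by
      rw [hy]; exact Pool.Agent.H617.PF.poly_natDegree _ w
    have hlt : ∀ z : K[X], z.natDegree ≤ P.natDegree - 1 → P ∣ z → z = 0 := by
      intro z hz hz2
      by_contra h0
      have := natDegree_le_of_dvd hz2 h0
      omega
    have hxy : x = y := by
      rcases hP.prime.dvd_or_dvd h6 with h7 | h7
      · exact absurd (isUnit_of_dvd_unit h7 (isUnit_C.mpr (IsUnit.mk0 c hc0))) hP.not_isUnit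
      · rcases hP.prime.dvd_or_dvd h7 with h8 | h8
        · exact sub_eq_zero.mp (hlt _ ((natDegree_sub_le _ _).trans (by omega)) h8)
        · rcases hP.prime.dvd_or_dvd h8 with h9 | h9
          · exfalso
            have h10 := hlt _ ((natDegree_add_le _ _).trans (by omega)) h9
            have h11 := congrArg (fun z => coeff z (P.natDegree - 1)) h10
            simp only [coeff_add, coeff_zero] at h11
            have h12 : x.coeff (P.natDegree - 1) = 1 := by rw [← hxd]; exact hxm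
            have h13 : y.coeff (P.natDegree - 1) = 1 := by rw [← hyd]; exact hym
            rw [h12, h13] at h11
            exact two_ne p hp2 (by rw [← h11]; norm_num)
          · exact absurd h9 hG
    rw [hx, hy] at hxy
    exact Pool.Agent.H617.PF.poly_injective _ hxy
  have hcard := Fintype.card_le_of_injective f hinj
  rw [Fintype.card_fun, Fintype.card_fin, Fintype.card_fin] at hcard
  omega

theorem all_parities_strong (p : ℕ) [hp : Fact p.Prime] [CharP K p] (hp2 : p ≠ 2) {k : ℕ}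
    (M N P T : Fin k → K[X]) (hMm : ∀ i, (M i).Monic) (hMN : ∀ i, IsCoprime (M i) (N i))
    (hwr : ∀ i, wr (M i) (N i) = P i * T i) (hT0 : ∀ i, T i ≠ 0)
    (hP : ∀ i, Irreducible (P i)) (hPm : ∀ i, (P i).Monic) (hPodd : ∀ i, Odd (P i).natDegree)
    (hPT : ∀ i j, ¬ P i ∣ T j) (hPP : ∀ i j, i ≠ j → P i ≠ P j) (hPM : ∀ i j, ¬ P i ∣ M j)
    (hPk : ∀ i, k < Fintype.card K ^ ((P i).natDegree - 1))
    (hsmall : ∀ R : K[X], Irreducible R → R.Monic →
      k < Fintype.card K ^ R.natDegree ∨ ∀ i, R ∣ M i) (z : ℕ) (hz1 : 1 ≤ z)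
    (hNz : ∀ i, (N i).natDegree < (M i).natDegree + p * z)
    (hTz : ∀ i, (wr (M i) (N i)).natDegree ≤ (M i).natDegree + p * z)
    (hz : ∑ i, (wr (M i) (N i)).natDegree ≤ z) (ε : Fin k → ℕ) :
    ∃ E r : K[X], E.Monic ∧ E.natDegree = ∑ i, (wr (M i) (N i)).natDegree ∧
      ∀ Z : K[X], Z.Monic → Z.natDegree = z → E ∣ Z - r →
        ∀ i, IsCoprime (M i * Z ^ p + N i) (wr (M i) (N i)) ∧
          (-1 : K) ^ om (M i * Z ^ p + N i) = (-1) ^ ε i ∧
          IsCoprime (M i * Z ^ p + N i) E := by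
  classical
  have hp1 : 1 ≤ p := hp.out.one_le
  have h2 : (2 : K) ≠ 0 := two_ne p hp2
  have hwr0 : ∀ i, wr (M i) (N i) ≠ 0 := by
    intro i
    rw [hwr]
    exact mul_ne_zero (hPm i).ne_zero (hT0 i)
  obtain ⟨c, hc0, hc⟩ := exists_nonsquare h2
  -- the moduli
  obtain ⟨m, hm⟩ : ∃ m : Option (Fin k) → K[X],
      m = fun o => Option.elim o (∏ i, (T i * C (T i).leadingCoeff⁻¹)) P := ⟨_, rfl⟩
  have hm0 : m none = ∏ i, (T i * C (T i).leadingCoeff⁻¹) := by rw [hm]; rfl
  have hms : ∀ i, m (some i) = P i := by intro i; rw [hm]; rfl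
  have hTm : ∀ i, (T i * C (T i).leadingCoeff⁻¹).Monic := fun i => monic_mul_leadingCoeff_inv (hT0 i)
  have hTd : ∀ i, T i ∣ m none := by
    intro i
    rw [hm0]
    exact (dvd_mul_right _ _).trans (Finset.dvd_prod_of_mem _ (Finset.mem_univ i))
  have hcopT : ∀ i j, IsCoprime (P i) (T j) := by
    intro i j
    rw [(hP i).coprime_iff_not_dvd]
    exact hPT i j
  have hcopP : ∀ i j, i ≠ j → IsCoprime (P i) (P j) := by
    intro i j hij
    rw [(hP i).coprime_iff_not_dvd]
    intro h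
    exact hPP i j hij (eq_of_monic_of_associated (hPm i) (hPm j) ((hP i).associated_of_dvd (hP j) h))
  have hcop0 : ∀ i, IsCoprime (P i) (m none) := by
    intro i
    rw [hm0]
    apply IsCoprime.prod_right
    intro j _
    apply IsCoprime.mul_right (hcopT i j)
    exact isCoprime_one_right.mul_right
      (by
        have hu : IsUnit (C (T j).leadingCoeff⁻¹) :=
          isUnit_C.mpr (IsUnit.mk0 _ (inv_ne_zero (leadingCoeff_ne_zero.mpr (hT0 j))))
        exact (isCoprime_mul_unit_left_right hu (P i) 1).mpr isCoprime_one_right |>.of_mul_right_left) |>.of_mul_right_right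
  have hcop : ∀ a b : Option (Fin k), a ≠ b → IsCoprime (m a) (m b) := by
    intro a b hab
    rcases a with _ | i <;> rcases b with _ | j
    · exact absurd rfl hab
    · rw [hms]; exact (hcop0 j).symm
    · rw [hms]; exact hcop0 i
    · rw [hms, hms]
      exact hcopP i j (fun h => hab (by rw [h]))
  have hmm : ∀ a, (m a).Monic := by
    intro a
    rcases a with _ | i
    · rw [hm0]; exact monic_prod_of_monic _ _ (fun i _ => hTm i)
    · rw [hms]; exact hPm i
  obtain ⟨E, hE⟩ : ∃ E, E = ∏ a, m a := ⟨_, rfl⟩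
  have hEm : E.Monic := by rw [hE]; exact monic_prod_of_monic _ _ (fun a _ => hmm a)
  have hEd : E.natDegree = ∑ i, (wr (M i) (N i)).natDegree := by
    rw [hE, natDegree_prod_of_monic _ _ (fun a _ => hmm a), Fintype.sum_option, hm0,
      natDegree_prod_of_monic _ _ (fun i _ => hTm i), ← Finset.sum_add_distrib]
    apply Finset.sum_congr rfl
    intro i _
    rw [hms, hwr, natDegree_mul (hPm i).ne_zero (hT0 i),
      natDegree_mul_C (inv_ne_zero (leadingCoeff_ne_zero.mpr (hT0 i)))]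
    ring
  have hEdvd : ∀ a, m a ∣ E := by
    intro a
    rw [hE]
    exact Finset.dvd_prod_of_mem _ (Finset.mem_univ a)
  -- the base point
  obtain ⟨y, hy⟩ := exists_base p M N hMN hsmall E hEm.ne_zero
  have hEz : E.natDegree ≤ z := by rw [hEd]; exact hz
  obtain ⟨Z0, hZ0⟩ : ∃ Z0, Z0 = y %ₘ E + E * X ^ (z - E.natDegree) := ⟨_, rfl⟩
  obtain ⟨hZ0m, hZ0d, hZ0y⟩ := monic_rep hEm y (X ^ (z - E.natDegree)) (monic_X_pow _)
  rw [← hZ0] at hZ0m hZ0d hZ0y
  rw [natDegree_X_pow, Nat.add_sub_cancel' hEz] at hZ0d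
  have hcopE : ∀ i, IsCoprime (M i * Z0 ^ p + N i) E := by
    intro i
    obtain ⟨w, hw⟩ : E ∣ M i * (Z0 ^ p - y ^ p) :=
      dvd_mul_of_dvd_right (hZ0y.trans (sub_dvd_pow_sub_pow _ _ p)) _
    have h1 : M i * Z0 ^ p + N i = (M i * y ^ p + N i) + E * w := by rw [← hw]; ring
    rw [h1]
    exact (hy i).add_mul_left_left _
  have hcop1 : ∀ i, IsCoprime (M i * Z0 ^ p + N i) (wr (M i) (N i)) := by
    intro i
    rw [hwr]
    apply IsCoprime.mul_right
    · have := hEdvd (some i)
      rw [hms] at this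
      exact (hcopE i).of_isCoprime_of_dvd_right this
    · exact (hcopE i).of_isCoprime_of_dvd_right ((hTd i).trans (hEdvd none))
  -- the residues
  have hcopPi : ∀ i j, ¬ P i ∣ M j * Z0 ^ p + N j := by
    intro i j h
    have h1 := hEdvd (some i)
    rw [hms] at h1
    have h3 := (hcopE j).of_isCoprime_of_dvd_right h1
    exact (hP i).not_isUnit (h3.isUnit_of_dvd' h dvd_rfl)
  choose t s ht hs hs2 using fun i => exists_flip_residue p hp2 M N (P i)
    (M i * Z0 ^ p + N i) c hc0 (hP i) (hPm i) (hPM i) (hPk i) i (hcopPi i i)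
  obtain ⟨ρ, hρ⟩ := crt m hcop (fun a => Option.elim a Z0 (fun i =>
    if (-1 : K) ^ om (M i * Z0 ^ p + N i) = (-1) ^ ε i then Z0 else s i))
  have hρ0 : m none ∣ ρ - Z0 := hρ none
  have hρs : ∀ i, P i ∣ ρ - (if (-1 : K) ^ om (M i * Z0 ^ p + N i) = (-1) ^ ε i then Z0 else s i) := by
    intro i
    have := hρ (some i)
    rw [hms] at this
    exact this
  refine ⟨E, ρ, hEm, hEd, ?_⟩
  intro Z hZm hZd hZρ i
  have hZ0' : m none ∣ Z - Z0 := by
    have h1 : Z - Z0 = (Z - ρ) + (ρ - Z0) := by ring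
    rw [h1]
    exact dvd_add ((hEdvd none).trans hZρ) hρ0
  have hTi : T i ∣ Z - Z0 := (hTd i).trans hZ0'
  have hPE : P i ∣ E := by
    have := hEdvd (some i)
    rwa [hms] at this
  obtain ⟨hAm, hAd⟩ := shape p hp1 (M i) (N i) Z0 z (hMm i) hZ0m hZ0d (hNz i)
  obtain ⟨hBm, hBd⟩ := shape p hp1 (M i) (N i) Z z (hMm i) hZm hZd (hNz i)
  have hfinE : ∀ j, IsCoprime (M j * Z ^ p + N j) E := by
    intro j
    rw [hE]
    apply IsCoprime.prod_right
    intro o _
    rcases o with _ | l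
    · obtain ⟨w, hw⟩ : m none ∣ M j * (Z ^ p - Z0 ^ p) :=
        dvd_mul_of_dvd_right (hZ0'.trans (sub_dvd_pow_sub_pow _ _ p)) _
      have h1 : M j * Z ^ p + N j = (M j * Z0 ^ p + N j) + m none * w := by rw [← hw]; ring
      rw [h1]
      exact ((hcopE j).of_isCoprime_of_dvd_right (hEdvd none)).add_mul_left_left _
    · rw [hms]
      have hPEl : P l ∣ E := by
        have := hEdvd (some l)
        rwa [hms] at this
      apply IsCoprime.symm
      rw [(hP l).coprime_iff_not_dvd]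
      have h1 := hρs l
      have hgen : ∀ r : K[X], P l ∣ ρ - r → ¬ P l ∣ M j * r ^ p + N j →
          ¬ P l ∣ M j * Z ^ p + N j := by
        intro r hr1 hr2 hr3
        apply hr2
        have h4 : P l ∣ Z - r := by
          have e : Z - r = (Z - ρ) + (ρ - r) := by ring
          rw [e]
          exact dvd_add (hPEl.trans hZρ) hr1
        have h5 : P l ∣ M j * (Z ^ p - r ^ p) :=
          dvd_mul_of_dvd_right (h4.trans (sub_dvd_pow_sub_pow _ _ p)) _
        have e : M j * r ^ p + N j = (M j * Z ^ p + N j) - M j * (Z ^ p - r ^ p) := by ring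
        rw [e]
        exact dvd_sub hr3 h5
      by_cases hcs : (-1 : K) ^ om (M l * Z0 ^ p + N l) = (-1) ^ ε l
      · rw [if_pos hcs] at h1
        exact hgen _ h1 (hcopPi l j)
      · rw [if_neg hcs] at h1
        exact hgen _ h1 (hs2 l j)
  have hw : (Z ^ p - Z0 ^ p).natDegree + (M i).natDegree ≤ (M i).natDegree + p * z := by
    have h1 : (Z ^ p - Z0 ^ p).natDegree ≤ p * z := by
      refine (natDegree_sub_le _ _).trans (max_le ?_ ?_)
      · rw [hZm.natDegree_pow, hZd]
      · rw [hZ0m.natDegree_pow, hZ0d]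
    omega
  have hn1 : 1 ≤ (M i).natDegree + p * z := by
    have : 1 ≤ p * z := Nat.one_le_iff_ne_zero.mpr (Nat.mul_ne_zero (by omega) (by omega))
    omega
  have hpm : ∀ a : ℕ, (-1 : K) ^ a = 1 ∨ (-1 : K) ^ a = -1 := fun a => neg_one_pow_eq_or K a
  by_cases hcase : (-1 : K) ^ om (M i * Z0 ^ p + N i) = (-1) ^ ε i
  · have h1 := hρs i
    rw [if_pos hcase] at h1
    have h3 : P i ∣ Z - Z0 := by
      have h4 : Z - Z0 = (Z - ρ) + (ρ - Z0) := by ring
      rw [h4]
      exact dvd_add (hPE.trans hZρ) h1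
    have h4 : wr (M i) (N i) ∣ Z - Z0 := by
      rw [hwr]
      exact (hcopT i i).mul_dvd h3 hTi
    obtain ⟨h5, h6⟩ := no_flip p hp2 (M i) (N i) Z0 Z _ hn1 (hMm i).ne_zero (hMN i) (hwr0 i)
      hAm hAd hBm hBd hw (hTz i) (hcop1 i) h4
    refine ⟨h5, ?_, hfinE i⟩
    rw [pow_add] at h6
    rw [← hcase]
    rcases hpm (om (M i * Z0 ^ p + N i)) with h | h <;>
      rcases hpm (om (M i * Z ^ p + N i)) with h' | h' <;>
      rw [h, h'] at h6 ⊢ <;> first | simpa using h6 | simpa using h6.symm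
  · have h1 := hρs i
    rw [if_neg hcase] at h1
    have h3 : P i ∣ (M i * Z ^ p + N i) - C c * (t i ^ 2 * (M i * Z0 ^ p + N i)) := by
      have h4 : (M i * Z ^ p + N i) - C c * (t i ^ 2 * (M i * Z0 ^ p + N i)) =
          (M i * (Z ^ p - (s i) ^ p)) +
            ((M i * (s i) ^ p + N i) - C c * (t i ^ 2 * (M i * Z0 ^ p + N i))) := by ring
      rw [h4]
      refine dvd_add (dvd_mul_of_dvd_right (Dvd.dvd.trans ?_ (sub_dvd_pow_sub_pow _ _ p)) _) (hs i)
      have h5 : Z - s i = (Z - ρ) + (ρ - s i) := by ring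
      rw [h5]
      exact dvd_add (hPE.trans hZρ) h1
    obtain ⟨h5, h6⟩ := flip_general p hp2 (M i) (N i) Z0 Z (P i) (T i) (t i) _ hn1 c hc hc0
      (hMm i).ne_zero (hMN i) (hwr0 i) (hwr i) (hPm i) (hPodd i) hAm hAd hBm hBd hw (hcop1 i)
      hTi (ht i) h3
    refine ⟨h5, ?_, hfinE i⟩
    rw [pow_add] at h6
    rcases hpm (om (M i * Z0 ^ p + N i)) with h | h <;>
      rcases hpm (om (M i * Z ^ p + N i)) with h' | h' <;>
      rcases hpm (ε i) with h'' | h'' <;>
      rw [h, h'] at h6 <;> rw [h, h''] at hcase <;> rw [h', h''] <;>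
      first
        | exact absurd rfl hcase
        | rfl
        | (exfalso; apply h2; linear_combination h6)
        | (exfalso; apply h2; linear_combination -h6)

end Pool.Agent.H617.SP
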