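import Mathlib
import Pool.Agent.H617.SP.D2
import Pool.Agent.H617.SP.F2
import Pool.Agent.H30.Par.LowG
import Pool.Agent.H675.Par.SW
import Pool.Agent.H183.Par.BRUN

/-!
The sieve in a residue class, and the auxiliary shift.
-/

namespace Pool.Agent.H617.SP

set_option linter.unusedSectionVars false

open Polynomial Pool.Agent.H524

/-- A shift of the variable after which all values are prime to `T`. -/
lemma exists_shift {K : Type*} [Field K] [Fintype K] {k : ℕ} (a b : Fin k → K[X])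
    (H : ∀ P : K[X], Irreducible P → P.Monic → ∃ r : K[X], ∀ i, ¬ P ∣ a i * r + b i)
    (T : K[X]) (hT : T ≠ 0) : ∃ z : K[X], ∀ i, IsCoprime (a i * z + b i) T := by
  let ι := {P : K[X] // Irreducible P ∧ P.Monic ∧ P ∣ T}
  haveI : Finite ι := by
    haveI : Finite (degreeLT K (T.natDegree + 1)) := finite_degreeLT _
    let g : ι → degreeLT K (T.natDegree + 1) := fun P => ⟨P.1, by
      rw [mem_degreeLT, degree_eq_natDegree P.2.1.ne_zero]
      exact_mod_cast Nat.lt_succ_of_le (natDegree_le_of_dvd P.2.2.2 hT)⟩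
    exact Finite.of_injective g (fun a b h => by
      have h' : (g a : K[X]) = (g b : K[X]) := congrArg Subtype.val h
      exact Subtype.ext h')
  choose f hf using fun P : ι => H P.1 P.2.1 P.2.2.1
  obtain ⟨z, hz⟩ := crt (fun P : ι => P.1) (by
    intro P R hPR
    rw [P.2.1.coprime_iff_not_dvd]
    intro h
    apply hPR
    have h1 : Associated P.1 R.1 := P.2.1.associated_of_dvd R.2.1 h
    exact Subtype.ext (eq_of_monic_of_associated P.2.2.1 R.2.2.1 h1)) f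
  refine ⟨z, fun i => isCoprime_of_monic hT ?_⟩
  intro P hP hPm h1 h2
  have h3 := hz ⟨P, hP, hPm, h2⟩
  apply hf ⟨P, hP, hPm, h2⟩ i
  have h5 : a i * (f ⟨P, hP, hPm, h2⟩) + b i =
      (a i * z + b i) - a i * (z - (f ⟨P, hP, hPm, h2⟩)) := by ring
  rw [h5]
  exact dvd_sub h1 (dvd_mul_of_dvd_right h3 _)

/-- A shift of the variable in a given class after which all values are prime to `T * M`. -/
lemma exists_shift_class {K : Type*} [Field K] [Fintype K] {k : ℕ} (a b : Fin k → K[X])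
    (H : ∀ P : K[X], Irreducible P → P.Monic → ∃ r : K[X], ∀ i, ¬ P ∣ a i * r + b i)
    (T M c₀ : K[X]) (hT : T ≠ 0) (hM : M ≠ 0) (hc₀ : ∀ i, IsCoprime (a i * c₀ + b i) M) :
    ∃ z : K[X], M ∣ z - c₀ ∧ ∀ i, IsCoprime (a i * z + b i) (T * M) := by
  let ι := {P : K[X] // Irreducible P ∧ P.Monic ∧ P ∣ T ∧ ¬ P ∣ M}
  haveI : Finite ι := by
    haveI : Finite (degreeLT K (T.natDegree + 1)) := finite_degreeLT _
    let g : ι → degreeLT K (T.natDegree + 1) := fun P => ⟨P.1, by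
      rw [mem_degreeLT, degree_eq_natDegree P.2.1.ne_zero]
      exact_mod_cast Nat.lt_succ_of_le (natDegree_le_of_dvd P.2.2.2.1 hT)⟩
    exact Finite.of_injective g (fun a b h => by
      have h' : (g a : K[X]) = (g b : K[X]) := congrArg Subtype.val h
      exact Subtype.ext h')
  choose f hf using fun P : ι => H P.1 P.2.1 P.2.2.1
  obtain ⟨z, hz⟩ := crt (fun o : Option ι => Option.elim o M (fun P => P.1)) (by
    intro P R hPR
    rcases P with _ | P <;> rcases R with _ | R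
    · exact absurd rfl hPR
    · exact ((R.2.1.coprime_iff_not_dvd).mpr R.2.2.2.2).symm
    · exact (P.2.1.coprime_iff_not_dvd).mpr P.2.2.2.2
    · show IsCoprime P.1 R.1
      rw [P.2.1.coprime_iff_not_dvd]
      intro h
      apply hPR
      have h1 : Associated P.1 R.1 := P.2.1.associated_of_dvd R.2.1 h
      exact congrArg some (Subtype.ext (eq_of_monic_of_associated P.2.2.1 R.2.2.1 h1)))
    (fun o => Option.elim o c₀ f)
  have hz0 : M ∣ z - c₀ := hz none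
  refine ⟨z, hz0, fun i => isCoprime_of_monic (mul_ne_zero hT hM) ?_⟩
  intro P hP hPm h1 h2
  by_cases hPM : P ∣ M
  · have h3 : P ∣ a i * c₀ + b i := by
      have h5 : a i * c₀ + b i = (a i * z + b i) - a i * (z - c₀) := by ring
      rw [h5]
      exact dvd_sub h1 (dvd_mul_of_dvd_right (hPM.trans hz0) _)
    exact hP.not_isUnit ((hc₀ i).isUnit_of_dvd' h3 hPM)
  · have hPT : P ∣ T := (hP.prime.dvd_or_dvd h2).resolve_right hPM
    have h3 : P ∣ z - f ⟨P, hP, hPm, hPT, hPM⟩ := hz (some ⟨P, hP, hPm, hPT, hPM⟩)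
    apply hf ⟨P, hP, hPm, hPT, hPM⟩ i
    have h5 : a i * (f ⟨P, hP, hPm, hPT, hPM⟩) + b i =
        (a i * z + b i) - a i * (z - (f ⟨P, hP, hPm, hPT, hPM⟩)) := by ring
    rw [h5]
    exact dvd_sub h1 (dvd_mul_of_dvd_right h3 _)

/-- The bad residues. -/
lemma exists_bad {K : Type*} [Field K] [Fintype K] (p : ℕ) [hp : Fact p.Prime] [CharP K p] {k : ℕ}
    (M N : Fin k → K[X]) (hMN : ∀ i, IsCoprime (M i) (N i)) :
    ∃ Ω : K[X] → Finset K[X], ∀ P : K[X], P.Monic → Irreducible P → (Ω P).card ≤ k ∧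
      (∀ r ∈ Ω P, r.degree < P.degree) ∧
      ∀ Z, (∀ r ∈ Ω P, ¬ P ∣ Z - r) → ∀ i, ¬ P ∣ M i * Z ^ p + N i := by
  classical
  refine ⟨fun P => Finset.univ.image (fun i =>
    if h : ∃ r, P ∣ M i * r ^ p + N i then h.choose %ₘ P else 0), ?_⟩
  intro P hPm hP
  refine ⟨(Finset.card_image_le).trans (by simp), ?_, ?_⟩
  · intro r hr
    rw [Finset.mem_image] at hr
    obtain ⟨i, -, rfl⟩ := hr
    split_ifs with h
    · exact degree_modByMonic_lt _ hPm
    · rw [degree_zero]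
      exact bot_lt_iff_ne_bot.mpr (by rw [Ne, degree_eq_bot]; exact hPm.ne_zero)
  · intro Z hZ i hi
    have h : ∃ r, P ∣ M i * r ^ p + N i := ⟨Z, hi⟩
    have hPM : ¬ P ∣ M i := by
      intro h1
      have h2 : P ∣ N i := (dvd_add_right (h1.mul_right _)).mp hi
      exact hP.not_isUnit ((hMN i).isUnit_of_dvd' h1 h2)
    have h3 := dvd_sub hi h.choose_spec
    rw [add_sub_add_right_eq_sub] at h3
    have h5 := dvd_of_pow_sub p hP hPM h3
    refine hZ (h.choose %ₘ P) ?_ ?_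
    · rw [Finset.mem_image]
      exact ⟨i, Finset.mem_univ i, by rw [dif_pos h]⟩
    · have h6 : Z - h.choose %ₘ P = (Z - h.choose) + P * (h.choose /ₘ P) := by
        have := modByMonic_add_div h.choose P
        linear_combination -this
      rw [h6]
      exact dvd_add h5 (dvd_mul_right _ _)

/-- The sieve. -/
theorem sieve_lower (K : Type) [Field K] [Fintype K] (k : ℕ) : ∃ A : ℕ, ∃ c₀ : ℝ, 0 < c₀ ∧
    ∀ (L m : ℕ) (Q E a₀ : K[X]) (Ω : K[X] → Finset K[X]), 1 ≤ m → A * m ≤ L → E ∣ Q →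
      (∀ P : K[X], P.Monic → Irreducible P → ¬ P ∣ Q → (Ω P).card ≤ k ∧
        (Ω P).card < Fintype.card K ^ P.natDegree ∧ ∀ r ∈ Ω P, r.degree < P.degree) →
      ∃ S : Finset K[X], c₀ * (Fintype.card K : ℝ) ^ L / (m : ℝ) ^ k ≤ S.card ∧
        ∀ u ∈ S, u.degree < (L : WithBot ℕ) ∧ ∀ P : K[X], P.Monic → Irreducible P →
          P.natDegree ≤ m → ¬ P ∣ Q → ∀ r ∈ Ω P, ¬ P ∣ a₀ + E * u - r := by
  classical
  obtain ⟨A, hA⟩ := Pool.Agent.H675.Par.sw Pool.Agent.H183.Par.brun K k (1 / 2) (by norm_num)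
  obtain ⟨c₁, hc₁⟩ : ∃ c₁ : ℝ, c₁ = Real.exp (-((k : ℝ) + (8 * (k : ℝ) ^ 3 + 2 * (k : ℝ) ^ 2))) :=
    ⟨_, rfl⟩
  have hc₁p : 0 < c₁ := by rw [hc₁]; exact Real.exp_pos _
  refine ⟨A, c₁ / 2, by positivity, ?_⟩
  intro L m Q E a₀ Ω hm hL hE hΩ
  have hmem : ∀ P ∈ Pool.Agent.H30.Par.PG K Q m,
      P.Monic ∧ Irreducible P ∧ P.natDegree ≤ m ∧ ¬ P ∣ Q := by
    intro P hP
    rw [Pool.Agent.H30.Par.PG, Finset.mem_filter, Pool.Agent.H694.Typ.mem_PU] at hP
    exact ⟨hP.1.1, hP.1.2.1, hP.1.2.2, hP.2⟩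
  have h1 := (hA L m (Pool.Agent.H30.Par.PG K Q m) Ω E a₀ hm hL (fun P hP => by
      obtain ⟨h1, h2, h3, h4⟩ := hmem P hP
      refine ⟨h1, h2, h3, ?_⟩
      exact ((h2.coprime_iff_not_dvd).2 (fun h => h4 (h.trans hE))).symm) (fun P hP => by
      obtain ⟨h1, h2, h3, h4⟩ := hmem P hP
      exact hΩ P h1 h2 h4)).1
  have h2 := Pool.Agent.H30.Par.prod_geG (K := K) Q k m hm (fun P => (Ω P).card) (fun P hP => by
      obtain ⟨h1, h2, h3, h4⟩ := hmem P hP
      exact ⟨(hΩ P h1 h2 h4).1, (hΩ P h1 h2 h4).2.1⟩)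
  obtain ⟨Sif, hSif⟩ : ∃ Sif : Set K[X], Sif = {u | u.degree < (L : WithBot ℕ) ∧
        ∀ P ∈ Pool.Agent.H30.Par.PG K Q m, ∀ r ∈ Ω P, ¬ P ∣ a₀ + E * u - r} := ⟨_, rfl⟩
  have hfin : Sif.Finite := by
    apply Set.Finite.subset (Finset.finite_toSet (Pool.Agent.H675.Par.SWL.Wn K L))
    intro u hu
    rw [hSif] at hu
    exact Finset.mem_coe.mpr (Pool.Agent.H675.Par.SWL.mem_Wn.mpr hu.1)
  have h3 : (1 - 1 / 2 : ℝ) * (∏ P ∈ Pool.Agent.H30.Par.PG K Q m, (1 - ((Ω P).card : ℝ) /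
      (Fintype.card K : ℝ) ^ P.natDegree)) * (Fintype.card K : ℝ) ^ L ≤ (Sif.ncard : ℝ) := by
    rw [hSif]; exact h1
  refine ⟨hfin.toFinset, ?_, ?_⟩
  · rw [← Set.ncard_eq_toFinset_card Sif hfin]
    refine le_trans ?_ h3
    rw [← hc₁] at h2
    have h4 : (0 : ℝ) ≤ (Fintype.card K : ℝ) ^ L := by positivity
    calc c₁ / 2 * (Fintype.card K : ℝ) ^ L / (m : ℝ) ^ k =
        (1 - 1 / 2 : ℝ) * (c₁ / (m : ℝ) ^ k) * (Fintype.card K : ℝ) ^ L := by ring
      _ ≤ _ := by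
        apply mul_le_mul_of_nonneg_right _ h4
        exact mul_le_mul_of_nonneg_left h2 (by norm_num)
  · intro u hu
    rw [Set.Finite.mem_toFinset, hSif] at hu
    refine ⟨hu.1, ?_⟩
    intro P hPm hP hPd hPQ r hr
    refine hu.2 P ?_ r hr
    rw [Pool.Agent.H30.Par.PG, Finset.mem_filter, Pool.Agent.H694.Typ.mem_PU]
    exact ⟨⟨hPm, hP, hPd⟩, hPQ⟩

end Pool.Agent.H617.SP
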