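import Mathlib
import Pool.Agent.H617.SP.J1
import Pool.Agent.H617.PF.B

/-!
Almost prime values of linear forms with prescribed parities.
-/

namespace Pool.Agent.H617.SP

set_option linter.unusedSectionVars false

open Polynomial Pool.Agent.H524

/-- The arithmetic of the parameters. -/
lemma numbers2 (p A n z W EB C₂ : ℕ) (hp : 1 ≤ p) (hC : C₂ = EB + W + 1) (hz : z = (n - W) / p)
    (hn : p * ((A + 1) * (C₂ + 1) + C₂) ≤ n) :
    W ≤ n ∧ EB + 1 ≤ z ∧ ∀ e L m : ℕ, e ≤ EB → L = z - e → m = L / (A + 1) →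
      1 ≤ m ∧ m ≤ n ∧ A * m ≤ L ∧ n / p ≤ L + C₂ ∧ e ≤ z ∧
      ∀ d : ℕ, m < d → n ≤ p * (A + 2) * d := by
  have hp0 : 0 < p := by omega
  have h1 : (A + 1) * (C₂ + 1) + C₂ ≤ n / p := by
    rw [Nat.le_div_iff_mul_le hp0, mul_comm]; exact hn
  have h2 : C₂ + 1 ≤ (A + 1) * (C₂ + 1) := Nat.le_mul_of_pos_left _ (by omega)
  have h3 : n / p ≤ n := Nat.div_le_self _ _
  have h4 : n / p ≤ z + W := by
    have e1 : n / p < z + W + 1 := by
      rw [Nat.div_lt_iff_lt_mul hp0]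
      have e2 := Nat.lt_div_mul_add (a := n - W) hp0
      rw [← hz] at e2
      have e3 : (z + W + 1) * p = z * p + W * p + p := by ring
      have e4 : W ≤ W * p := Nat.le_mul_of_pos_right _ hp0
      omega
    omega
  have hzn : z ≤ n := by
    rw [hz]
    exact (Nat.div_le_self _ _).trans (Nat.sub_le _ _)
  refine ⟨by omega, by omega, ?_⟩
  intro e L m he hL hm
  have h5 : (A + 1) * (C₂ + 1) ≤ L := by omega
  have h6 : C₂ + 1 ≤ m := by
    rw [hm, Nat.le_div_iff_mul_le (by omega), mul_comm]; exact h5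
  have h7 : m * (A + 1) ≤ L := by rw [hm]; exact Nat.div_mul_le_self _ _
  have h8 : m * (A + 1) = A * m + m := by ring
  have h9 : L < m * (A + 1) + (A + 1) := by
    rw [hm]; exact Nat.lt_div_mul_add (by omega)
  refine ⟨by omega, by omega, by omega, by omega, by omega, ?_⟩
  intro d hd
  have h10 : n < (n / p + 1) * p := by
    have := Nat.lt_div_mul_add (a := n) hp0
    have e3 : (n / p + 1) * p = n / p * p + p := by ring
    omega
  have h11 : (m + 1) * (A + 1) ≤ d * (A + 1) := Nat.mul_le_mul_right _ hd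
  have h12 : (m + 1) * (A + 1) = m * (A + 1) + (A + 1) := by ring
  have h13 : d * (A + 2) = d * (A + 1) + d := by ring
  have h14 : n / p + 1 ≤ d * (A + 2) := by omega
  calc n ≤ (n / p + 1) * p := h10.le
    _ ≤ d * (A + 2) * p := Nat.mul_le_mul_right _ h14
    _ = p * (A + 2) * d := by ring

theorem almost_prime (p : ℕ) [hp : Fact p.Prime] (hp2 : p ≠ 2) (K : Type) [Field K] [Fintype K]
    [CharP K p] (k : ℕ) (hk : 1 ≤ k) :
    ∃ R : ℕ, ∀ a b : Fin k → K[X], (∀ i, a i ≠ 0) → (∀ i j, i ≠ j → a i * b j - a j * b i ≠ 0) →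
      (∀ P : K[X], Irreducible P → P.Monic → ∃ r : K[X], ∀ i, ¬ P ∣ a i * r + b i) →
      ∀ M c₀ : K[X], M.Monic → (∀ i, IsCoprime (a i * c₀ + b i) M) →
      ∃ c : ℝ, 0 < c ∧ ∃ n₀ : ℕ, ∀ n : ℕ, n₀ ≤ n → ∀ ε : Fin k → ℕ, ∃ S : Finset K[X],
        c * (Fintype.card K : ℝ) ^ (n / p) / (n : ℝ) ^ k ≤ S.card ∧
        ∀ f ∈ S, f.Monic ∧ f.natDegree = n ∧ M ∣ f - c₀ ∧ ∀ i, Squarefree (a i * f + b i) ∧
          (∀ P : K[X], Irreducible P → P ∣ a i * f + b i → n ≤ R * P.natDegree) ∧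
          (-1 : K) ^ om (a i * f + b i) = (-1) ^ ε i := by
  classical
  have hp3 : 3 ≤ p := by
    have := hp.out.two_le
    omega
  have hq1 : 1 < Fintype.card K := Fintype.one_lt_card
  obtain ⟨A, c₀, hc₀, hS⟩ := sieve_lower K k
  refine ⟨p * (A + 2), ?_⟩
  intro a b ha0 hab hadm M₀ c₀' hM₀ hcM
  have hl0 : lcmPoly K k ≠ 0 := (monic_lcmPoly K k).ne_zero
  obtain ⟨c, hcc, hc⟩ := exists_shift_class a b hadm (lcmPoly K k) M₀ c₀' hl0 hM₀.ne_zero hcM
  obtain ⟨ℓ, hℓ⟩ : ∃ ℓ, ℓ = lcmPoly K k * M₀ := ⟨_, rfl⟩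
  have hℓm : ℓ.Monic := by rw [hℓ]; exact (monic_lcmPoly K k).mul hM₀
  have hlℓ : lcmPoly K k ∣ ℓ := by rw [hℓ]; exact dvd_mul_right _ _
  have hMℓ : M₀ ∣ ℓ := by rw [hℓ]; exact dvd_mul_left _ _
  rw [← hℓ] at hc
  obtain ⟨e, he⟩ : ∃ e : Fin k → K[X], e = fun i => a i * c + b i := ⟨_, rfl⟩
  have hei : ∀ i, e i = a i * c + b i := by intro i; rw [he]
  have hXl : (X : K[X]) ∣ ℓ :=
    (dvd_lcmPoly X X_ne_zero (by rw [natDegree_X]; exact hk)).trans hlℓ
  have hcope : ∀ i, IsCoprime (e i) ℓ := by intro i; rw [hei]; exact hc i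
  have he0 : ∀ i, e i ≠ 0 := by
    intro i h
    have h1 := hcope i
    rw [h, isCoprime_zero_left] at h1
    exact not_isUnit_X (isUnit_of_dvd_unit hXl h1)
  have hab' : ∀ i j, i ≠ j → a i * e j - a j * e i ≠ 0 := by
    intro i j hij
    rw [hei, hei]
    have h1 := hab i j hij
    intro h
    apply h1
    rw [← h]
    ring
  have hcopa : ∀ i, IsCoprime (a i) (e i) := by
    intro i
    apply isCoprime_of_monic (he0 i)
    intro P hP hPm h1 h2
    obtain ⟨r, hr⟩ := hadm P hP hPm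
    apply hr i
    rw [hei] at h2
    have h3 : P ∣ b i := (dvd_add_right (h1.mul_right _)).mp h2
    exact dvd_add (h1.mul_right _) h3
  obtain ⟨D, hD⟩ : ∃ D, D = k + ∑ i, (a i).natDegree + ∑ i, (e i).natDegree := ⟨_, rfl⟩
  have haD : ∀ i, (a i).natDegree ≤ D := by
    intro i
    have h6 : (a i).natDegree ≤ ∑ i, (a i).natDegree :=
      Finset.single_le_sum (f := fun i => (a i).natDegree) (fun _ _ => Nat.zero_le _)
        (Finset.mem_univ i)
    omega
  have heD : ∀ i, (e i).natDegree ≤ D := by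
    intro i
    have h6 : (e i).natDegree ≤ ∑ i, (e i).natDegree :=
      Finset.single_le_sum (f := fun i => (e i).natDegree) (fun _ _ => Nat.zero_le _)
        (Finset.mem_univ i)
    omega
  -- the polynomials
  obtain ⟨Q, hQ⟩ : ∃ Q : K[X], Q = ℓ * X ^ (4 * D + 1) := ⟨_, rfl⟩
  have hQm : Q.Monic := by rw [hQ]; exact hℓm.mul (monic_X_pow _)
  have hQ0 : Q ≠ 0 := hQm.ne_zero
  obtain ⟨κ, hκ⟩ : ∃ κ, Q.natDegree = κ := ⟨_, rfl⟩
  have hκ1 : κ = ℓ.natDegree + (4 * D + 1) := by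
    rw [← hκ, hQ, hℓm.natDegree_mul (monic_X_pow _), natDegree_X_pow]
  have hlQ : ℓ ∣ Q := by rw [hQ]; exact dvd_mul_right _ _
  have hcopQ : ∀ i, IsCoprime (a i * Q) (e i) := by
    intro i
    refine (hcopa i).mul_left ?_
    rw [hQ]
    exact IsCoprime.mul_left (hcope i).symm
      (((hcope i).symm.of_isCoprime_of_dvd_left hXl).pow_left)
  obtain ⟨V, hV⟩ : ∃ V : K[X], V = (X ^ (4 * D + 1)) ^ p + X := ⟨_, rfl⟩
  have hV1 : derivative V = 1 := by
    rw [hV, derivative_add, deriv_pow_p p, derivative_X, zero_add]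
  have hVν : V.natDegree = p * (4 * D + 1) := by
    rw [hV, natDegree_add_eq_left_of_natDegree_lt]
    · rw [natDegree_pow, natDegree_X_pow]
    · rw [natDegree_X, natDegree_pow, natDegree_X_pow]
      nlinarith
  obtain ⟨ν, hν⟩ : ∃ ν, ν = p * (4 * D + 1) := ⟨_, rfl⟩
  rw [← hν] at hVν
  have hν4 : 4 * D < ν := by rw [hν]; nlinarith
  obtain ⟨θ, hθ⟩ : ∃ θ, θ = p * κ + ν + 4 * D := ⟨_, rfl⟩
  obtain ⟨u0, hu0⟩ : ∃ u0, u0 = 3 * (k * (θ + 2 * k + 1)) + k * θ := ⟨_, rfl⟩
  obtain ⟨W, hW⟩ : ∃ W, W = p * κ + u0 := ⟨_, rfl⟩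
  obtain ⟨EB, hEB⟩ : ∃ EB, EB = k * (2 * θ + (u0 + p)) := ⟨_, rfl⟩
  obtain ⟨C₂, hC₂⟩ : ∃ C₂, C₂ = EB + W + 1 := ⟨_, rfl⟩
  have hq0 : (0 : ℝ) < Fintype.card K := by
    have : 0 < Fintype.card K := by omega
    exact_mod_cast this
  refine ⟨c₀ / (Fintype.card K : ℝ) ^ C₂, by positivity,
    p * ((A + 1) * (C₂ + 1) + C₂) + c.natDegree + 1, ?_⟩
  intro n hn ε
  obtain ⟨z, hz⟩ : ∃ z, z = (n - W) / p := ⟨_, rfl⟩
  obtain ⟨hWn, hzE, hnum⟩ := numbers2 p A n z W EB C₂ (by omega) hC₂ hz (by omega)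
  obtain ⟨u, hu⟩ : ∃ u, u = u0 + (n - W) % p := ⟨_, rfl⟩
  have hup : u < u0 + p := by
    have := Nat.mod_lt (n - W) (show 0 < p by omega)
    omega
  have hsum : p * κ + (u + p * z) = n := by
    have := Nat.div_add_mod (n - W) p
    rw [← hz] at this
    omega
  have hsumP : 3 * ∑ i : Fin k, (2 * (θ / 2 + (i : ℕ) + 1) + 1) + k * θ ≤ u := by
    have h1 : ∑ i : Fin k, (2 * (θ / 2 + (i : ℕ) + 1) + 1) ≤ k * (θ + 2 * k + 1) := by
      refine (Finset.sum_le_card_nsmul _ _ (θ + 2 * k + 1) (fun i _ => ?_)).trans (by simp)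
      have := i.2
      omega
    omega
  obtain ⟨U, hUm, hUd, B, P, T, β, hβ0, hBm, hBd, hrel0, hQB, hcop, hwr, hT0, hPi, hPm, hPodd,
    hPT, hPP, hPM, hPθ⟩ := exists_data_general p hp2 D a e ha0 he0 haD heD hab' κ ν θ Q V hQm hκ
      (by omega) (fun _ => 1) e (fun i => (one_mul _).symm) (fun i => one_dvd _) hcopQ hV1 hVν hν4
      hθ.ge u hsumP
  have hrel : ∀ i, a i * Q ^ p = C (β i) * B i := by
    intro i
    rw [hrel0 i, mul_one]
  have hMd : ∀ i, (B i * U).natDegree = (B i).natDegree + u := by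
    intro i
    rw [(hBm i).natDegree_mul hUm, hUd]
  have hNd : ∀ i, (B i * V + C (β i)⁻¹ * e i).natDegree ≤ (B i).natDegree + ν := by
    intro i
    refine (natDegree_add_le _ _).trans (max_le ?_ ?_)
    · refine natDegree_mul_le.trans (by rw [hVν])
    · refine (natDegree_C_mul_le _ _).trans ?_
      have := heD i
      omega
  have hwrd : ∀ i, (wr (B i * U) (B i * V + C (β i)⁻¹ * e i)).natDegree ≤ 2 * θ + (u0 + p) := by
    intro i
    have h1 := natDegree_wr_le (B i * U) (B i * V + C (β i)⁻¹ * e i)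
    have h2 := hNd i
    have h3 := hBd i
    rw [hMd i] at h1
    omega
  have hθEB : θ ≤ EB := by
    have h1 : 1 * (2 * θ + (u0 + p)) ≤ k * (2 * θ + (u0 + p)) := Nat.mul_le_mul_right _ hk
    omega
  have hzpz : z ≤ p * z := Nat.le_mul_of_pos_left _ (by omega)
  have hlarge : ∀ R : K[X], Irreducible R → ¬ R ∣ Q → k < Fintype.card K ^ R.natDegree := by
    intro R hR hRQ
    by_contra h
    apply hRQ
    have h1 : R.natDegree < Fintype.card K ^ R.natDegree := Nat.lt_pow_self hq1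
    exact ((dvd_lcmPoly R hR.ne_zero (by omega)).trans hlℓ).trans hlQ
  have hsumE : ∑ i, (wr (B i * U) (B i * V + C (β i)⁻¹ * e i)).natDegree ≤ EB := by
    rw [hEB]
    refine (Finset.sum_le_card_nsmul _ _ (2 * θ + (u0 + p)) (fun i _ => hwrd i)).trans (by simp)
  obtain ⟨E, r, hEm, hEd, hE⟩ := all_parities_strong p hp2 (fun i => B i * U)
    (fun i => B i * V + C (β i)⁻¹ * e i) P T (fun i => (hBm i).mul hUm) hcop hwr hT0 hPi hPm hPodd
    hPT hPP hPM (by
      intro i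
      have h1 := hPθ i
      have h2 : θ ≤ (P i).natDegree - 1 := by omega
      have h3 : θ < Fintype.card K ^ θ := Nat.lt_pow_self hq1
      have h4 := Nat.pow_le_pow_right (n := Fintype.card K) (by omega) h2
      have h5 : k ≤ D := by omega
      omega) (by
      intro R hR hRm
      by_cases h : R ∣ Q
      · right
        intro i
        exact dvd_mul_of_dvd_left (h.trans (hQB i)) _
      · exact Or.inl (hlarge R hR h)) z (by omega)
    (by
      intro i
      have h1 := hNd i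
      show (B i * V + C (β i)⁻¹ * e i).natDegree < (B i * U).natDegree + p * z
      rw [hMd i]
      omega)
    (by
      intro i
      show (wr (B i * U) (B i * V + C (β i)⁻¹ * e i)).natDegree ≤ (B i * U).natDegree + p * z
      have h1 := natDegree_wr_le (B i * U) (B i * V + C (β i)⁻¹ * e i)
      have h2 := hNd i
      have h3 := hBd i
      omega)
    (by
      show ∑ i, (wr (B i * U) (B i * V + C (β i)⁻¹ * e i)).natDegree ≤ z
      omega) ε
  have hEd' : E.natDegree ≤ EB := by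
    rw [hEd]
    exact hsumE
  obtain ⟨L, hL⟩ : ∃ L, L = z - E.natDegree := ⟨_, rfl⟩
  obtain ⟨m, hm⟩ : ∃ m, m = L / (A + 1) := ⟨_, rfl⟩
  obtain ⟨hm1, hmn, hAm, hnL, hez, hdeg⟩ := hnum E.natDegree L m hEd' hL hm
  obtain ⟨Ω, hΩ⟩ := exists_bad p (fun i => B i * U) (fun i => B i * V + C (β i)⁻¹ * e i) hcop
  obtain ⟨S, hS1, hS2⟩ := hS L m (Q * E) E (r %ₘ E + E * X ^ L) Ω hm1 hAm (dvd_mul_left _ _) (by
    intro R hRm hR hRQE
    obtain ⟨h1, h2, h3⟩ := hΩ R hRm hR
    have h4 := hlarge R hR (fun h => hRQE (h.mul_right _))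
    exact ⟨h1, by omega, h2⟩)
  let Zf : K[X] → K[X] := fun x => r %ₘ E + E * X ^ L + E * x
  let Ff : K[X] → K[X] := fun x => c + Q ^ p * (U * Zf x ^ p + V)
  have hFinj : Function.Injective Ff := by
    intro x y hxy
    have h1 : c + Q ^ p * (U * Zf x ^ p + V) = c + Q ^ p * (U * Zf y ^ p + V) := hxy
    have h2 := mul_left_cancel₀ (pow_ne_zero p hQ0) (add_left_cancel h1)
    have h3 := add_right_cancel h2
    have h4 := mul_left_cancel₀ hUm.ne_zero h3
    have h5 : (Zf x - Zf y) ^ p = 0 := by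
      rw [sub_pow_char (p := p), h4, sub_self]
    have h6 : Zf x - Zf y = 0 := pow_eq_zero_iff (by omega) |>.mp h5
    have h7 : r %ₘ E + E * X ^ L + E * x = r %ₘ E + E * X ^ L + E * y := sub_eq_zero.mp h6
    exact mul_left_cancel₀ hEm.ne_zero (add_left_cancel h7)
  refine ⟨S.image Ff, ?_, ?_⟩
  · rw [Finset.card_image_of_injective _ hFinj]
    refine le_trans ?_ hS1
    have h1 : (Fintype.card K : ℝ) ^ (n / p) ≤
        (Fintype.card K : ℝ) ^ L * (Fintype.card K : ℝ) ^ C₂ := by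
      rw [← pow_add]
      exact pow_le_pow_right₀ (by exact_mod_cast hq1.le) hnL
    have hm0 : (0 : ℝ) < m := by exact_mod_cast hm1
    have h2 : (0 : ℝ) < (m : ℝ) ^ k := by positivity
    have h3 : (m : ℝ) ^ k ≤ (n : ℝ) ^ k :=
      pow_le_pow_left₀ hm0.le (by exact_mod_cast hmn) k
    calc c₀ / (Fintype.card K : ℝ) ^ C₂ * (Fintype.card K : ℝ) ^ (n / p) / (n : ℝ) ^ k
        ≤ c₀ / (Fintype.card K : ℝ) ^ C₂ * (Fintype.card K : ℝ) ^ (n / p) / (m : ℝ) ^ k :=
          div_le_div_of_nonneg_left (by positivity) h2 h3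
      _ ≤ c₀ / (Fintype.card K : ℝ) ^ C₂ *
          ((Fintype.card K : ℝ) ^ L * (Fintype.card K : ℝ) ^ C₂) / (m : ℝ) ^ k := by
          apply div_le_div_of_nonneg_right _ h2.le
          exact mul_le_mul_of_nonneg_left h1 (by positivity)
      _ = c₀ * (Fintype.card K : ℝ) ^ L / (m : ℝ) ^ k := by field_simp
  · intro f hf
    rw [Finset.mem_image] at hf
    obtain ⟨x, hx, rfl⟩ := hf
    obtain ⟨hxL, hxs⟩ := hS2 x hx
    have hXx : (X ^ L + x : K[X]).Monic := monic_X_pow_add hxL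
    have hXd : (X ^ L + x : K[X]).natDegree = L := by
      rw [natDegree_add_eq_left_of_degree_lt (by rw [degree_X_pow]; exact hxL), natDegree_X_pow]
    obtain ⟨hZm, hZd, hZr⟩ := monic_rep hEm r (X ^ L + x) hXx
    have hZe : r %ₘ E + E * (X ^ L + x) = Zf x := by
      show r %ₘ E + E * (X ^ L + x) = r %ₘ E + E * X ^ L + E * x
      ring
    rw [hZe] at hZm hZd hZr
    have hZd' : (Zf x).natDegree = z := by rw [hZd, hXd]; omega
    have hin : (U * Zf x ^ p + V).Monic ∧ (U * Zf x ^ p + V).natDegree = u + p * z := by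
      have h1 := shape p (by omega) U V (Zf x) z hUm hZm hZd' (by rw [hVν, hUd]; omega)
      rw [hUd] at h1
      exact h1
    have hgm : (Q ^ p * (U * Zf x ^ p + V)).Monic := (hQm.pow p).mul hin.1
    have hgd : (Q ^ p * (U * Zf x ^ p + V)).natDegree = n := by
      rw [(hQm.pow p).natDegree_mul hin.1, hQm.natDegree_pow, hκ, hin.2, hsum]
    have hcd : c.natDegree < (Q ^ p * (U * Zf x ^ p + V)).natDegree := by
      rw [hgd]; omega
    refine ⟨hgm.add_of_right ?_, ?_, ?_, ?_⟩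
    · exact degree_lt_degree hcd
    · show (c + Q ^ p * (U * Zf x ^ p + V)).natDegree = n
      rw [natDegree_add_eq_right_of_natDegree_lt hcd, hgd]
    · have h1 : Ff x - c₀' = (c - c₀') + Q ^ p * (U * Zf x ^ p + V) := by
        show c + Q ^ p * (U * Zf x ^ p + V) - c₀' = _
        ring
      rw [h1]
      refine dvd_add hcc (dvd_mul_of_dvd_left ?_ _)
      exact (hMℓ.trans hlQ).trans (dvd_pow_self _ (by omega))
    · intro i
      obtain ⟨h1, h2, h3⟩ := hE (Zf x) hZm hZd' hZr i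
      have hu1 : IsUnit (C (β i)) := isUnit_C.mpr (IsUnit.mk0 _ (hβ0 i))
      have hCC : C (β i) * C (β i)⁻¹ = (1 : K[X]) := by
        rw [← C_mul, mul_inv_cancel₀ (hβ0 i), C_1]
      have hsq := sqf_of_coprime p (B i * U) (B i * V + C (β i)⁻¹ * e i) (Zf x) h1
      have hval : a i * Ff x + b i =
          C (β i) * (B i * U * Zf x ^ p + (B i * V + C (β i)⁻¹ * e i)) := by
        show a i * (c + Q ^ p * (U * Zf x ^ p + V)) + b i = _
        linear_combination (U * Zf x ^ p + V) * hrel i - (e i) * hCC - hei i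
      rw [hval]
      refine ⟨?_, ?_, ?_⟩
      · exact hsq.squarefree_of_dvd ((hu1.mul_left_dvd).mpr dvd_rfl)
      · intro R hR hRd
        obtain ⟨R', hR'm, hR'i, hR'R⟩ := exists_monic_irreducible_factor R hR.not_isUnit
        have hR'd : R' ∣ B i * U * Zf x ^ p + (B i * V + C (β i)⁻¹ * e i) :=
          (hu1.dvd_mul_left).mp (hR'R.trans hRd)
        have hle : R'.natDegree ≤ R.natDegree := natDegree_le_of_dvd hR'R hR.ne_zero
        have hlt : m < R'.natDegree := by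
          by_contra hcon
          by_cases hQE : R' ∣ Q * E
          · rcases hR'i.prime.dvd_or_dvd hQE with h4 | h4
            · have h5 : R' ∣ B i * U := dvd_mul_of_dvd_left (h4.trans (hQB i)) _
              have h6 : R' ∣ B i * V + C (β i)⁻¹ * e i :=
                (dvd_add_right (h5.mul_right _)).mp hR'd
              exact hR'i.not_isUnit ((hcop i).isUnit_of_dvd' h5 h6)
            · exact hR'i.not_isUnit (h3.isUnit_of_dvd' hR'd h4)
          · have h4 := (hΩ R' hR'm hR'i).2.2 (Zf x) (fun s hs => by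
              exact hxs R' hR'm hR'i (by omega) hQE s hs) i
            exact h4 hR'd
        exact (hdeg _ hlt).trans (Nat.mul_le_mul_left _ hle)
      · rw [om_mul hu1.ne_zero hsq.ne_zero, om_of_isUnit hu1, zero_add]
        exact h2

end Pool.Agent.H617.SP
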