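import Mathlib
import Pool.Agent.H617.SP.J2

/-!
The number of factors, and a covering by small primes.
-/

namespace Pool.Agent.H617.SP

set_option linter.unusedSectionVars false

open Polynomial

lemma om_mul_le {K : Type*} [Field K] {F : K[X]} (hF : F ≠ 0) (n R : ℕ)
    (h : ∀ P : K[X], Irreducible P → P ∣ F → n ≤ R * P.natDegree) :
    om F * n ≤ R * F.natDegree := by
  classical
  have h1 : Associated (UniqueFactorizationMonoid.factors F).prod F :=
    UniqueFactorizationMonoid.factors_prod hF
  have h2 : F.natDegree = (UniqueFactorizationMonoid.factors F).prod.natDegree :=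
    (natDegree_eq_of_degree_eq (degree_eq_degree_of_associated h1)).symm
  have h3 : (0 : K[X]) ∉ UniqueFactorizationMonoid.factors F := by
    intro h0
    exact (UniqueFactorizationMonoid.irreducible_of_factor _ h0).ne_zero rfl
  rw [h2, natDegree_multiset_prod _ h3]
  have h4 := Multiset.card_nsmul_le_sum (a := n)
    (s := (UniqueFactorizationMonoid.factors F).map (fun P => R * P.natDegree)) (by
      intro x hx
      rw [Multiset.mem_map] at hx
      obtain ⟨P, hP, rfl⟩ := hx
      exact h P (UniqueFactorizationMonoid.irreducible_of_factor _ hP)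
        (UniqueFactorizationMonoid.dvd_of_mem_factors hP))
  rw [Multiset.card_map, Multiset.sum_map_mul_left, smul_eq_mul] at h4
  exact h4

/-- A class in which all the other translates have small factors. -/
lemma exists_cover {K : Type} [Field K] [Fintype K] (d : ℕ) (H : Finset K[X])
    (hH : ∀ h ∈ H, h.natDegree ≤ d) :
    ∃ M c : K[X], M.Monic ∧ (∀ h ∈ H, IsCoprime (1 * c + h) M) ∧
      ∀ g : K[X], g.natDegree ≤ d → g ∉ H → ∃ P : K[X], Irreducible P ∧ P ∣ M ∧ P ∣ c + g := by
  classical
  obtain ⟨G, hG⟩ : ∃ G : Finset K[X], G = (Pool.Agent.H675.Par.SWL.Wn K (d + 1)) \ H := ⟨_, rfl⟩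
  have hmem : ∀ g : K[X], g ∈ G ↔ g.natDegree ≤ d ∧ g ∉ H := by
    intro g
    rw [hG, Finset.mem_sdiff, Pool.Agent.H675.Par.SWL.mem_Wn]
    have h1 : g.degree < ((d + 1 : ℕ) : WithBot ℕ) ↔ g.natDegree ≤ d := by
      by_cases hg : g = 0
      · rw [hg, degree_zero, natDegree_zero]
        exact ⟨fun _ => Nat.zero_le _, fun _ => WithBot.bot_lt_coe _⟩
      · rw [← natDegree_lt_iff_degree_lt hg]
        omega
    rw [h1]
  choose π hπi hπm hπd using fun j : Fin G.card =>
    exists_irreducible (K := K) (d + 1 + j) (by omega)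
  have hcop : ∀ i j, i ≠ j → IsCoprime (π i) (π j) := by
    intro i j hij
    rw [(hπi i).coprime_iff_not_dvd]
    intro h
    have h1 := eq_of_monic_of_associated (hπm i) (hπm j) ((hπi i).associated_of_dvd (hπi j) h)
    have h2 := congrArg natDegree h1
    rw [hπd, hπd] at h2
    exact hij (Fin.ext (by omega))
  obtain ⟨c, hc⟩ := crt π hcop (fun j => -((G.equivFin.symm j : G) : K[X]))
  refine ⟨∏ j, π j, c, monic_prod_of_monic _ _ (fun j _ => hπm j), ?_, ?_⟩
  · intro h hh
    apply IsCoprime.prod_right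
    intro j _
    apply IsCoprime.symm
    rw [(hπi j).coprime_iff_not_dvd]
    intro h1
    have h2 := hc j
    obtain ⟨g, hg⟩ : ∃ g : K[X], g = ((G.equivFin.symm j : G) : K[X]) := ⟨_, rfl⟩
    have hgG : g ∈ G := by rw [hg]; exact (G.equivFin.symm j).2
    rw [← hg] at h2
    have h3 : π j ∣ h - g := by
      have e : h - g = (1 * c + h) - (c - -g) := by ring
      rw [e]
      exact dvd_sub h1 h2
    have h4 : h - g ≠ 0 := by
      intro h0
      have h5 := sub_eq_zero.mp h0
      rw [h5] at hh
      exact ((hmem g).mp hgG).2 hh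
    have h5 := natDegree_le_of_dvd h3 h4
    rw [hπd] at h5
    have h6 := natDegree_sub_le_of (hH h hh) ((hmem g).mp hgG).1
    omega
  · intro g hgd hgH
    have hgG : g ∈ G := (hmem g).mpr ⟨hgd, hgH⟩
    refine ⟨π (G.equivFin ⟨g, hgG⟩), hπi _, Finset.dvd_prod_of_mem _ (Finset.mem_univ _), ?_⟩
    have h2 := hc (G.equivFin ⟨g, hgG⟩)
    rw [Equiv.symm_apply_apply, sub_neg_eq_add] at h2
    exact h2

end Pool.Agent.H617.SP
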