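import Mathlib
import Pool.Agent.H617.SP.J3

/-!
Consecutive almost prime values.
-/

namespace Pool.Agent.H617.SP

set_option linter.unusedSectionVars false

open Polynomial

lemma sign_of {K : Type*} [Field K] (h2 : (2 : K) ≠ 0) (m : ℕ) (s : ℤ) (hs : s = 1 ∨ s = -1)
    (h : (-1 : K) ^ m = (-1) ^ (if s = 1 then 0 else 1)) : (-1 : ℤ) ^ m = s := by
  rcases neg_one_pow_eq_or ℤ m with h7 | h7 <;> rcases hs with h8 | h8 <;> rw [h7, h8]
  · exfalso
    have h9 : (-1 : K) ^ m = 1 := by exact_mod_cast congrArg (Int.cast : ℤ → K) h7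
    rw [h9, h8, if_neg (by norm_num), pow_one] at h
    apply h2
    linear_combination h
  · exfalso
    have h9 : (-1 : K) ^ m = -1 := by exact_mod_cast congrArg (Int.cast : ℤ → K) h7
    rw [h9, h8, if_pos rfl, pow_zero] at h
    apply h2
    linear_combination -h

theorem consecutive (p : ℕ) [hp : Fact p.Prime] (hp2 : p ≠ 2) (K : Type) [Field K] [Fintype K]
    [CharP K p] (k : ℕ) (hk : 1 ≤ k) :
    ∃ R : ℕ, ∀ (d : ℕ) (H : Finset K[X]), H.card = k → (∀ h ∈ H, h.natDegree ≤ d) →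
      (∀ P : K[X], Irreducible P → P.Monic → ∃ r : K[X], ∀ h ∈ H, ¬ P ∣ r + h) →
      ∃ (B : ℕ) (δ : ℝ) (N : ℕ), 0 < δ ∧ ∀ n : ℕ, N ≤ n → ∀ σ : K[X] → ℤ,
        (∀ h ∈ H, σ h = 1 ∨ σ h = -1) → ∃ S : Finset K[X],
          δ * (Fintype.card K : ℝ) ^ (n / p) / (n : ℝ) ^ k ≤ S.card ∧
          ∀ f ∈ S, f.Monic ∧ f.natDegree = n ∧
            (∀ h ∈ H, Squarefree (f + h) ∧ om (f + h) ≤ R ∧
              (∀ P : K[X], Irreducible P → P ∣ f + h → n ≤ R * P.natDegree) ∧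
              (-1 : ℤ) ^ om (f + h) = σ h) ∧
            ∀ g : K[X], g.natDegree ≤ d → g ∉ H →
              ∃ P : K[X], Irreducible P ∧ P.natDegree ≤ B ∧ P ∣ f + g := by
  classical
  have h2 : (2 : K) ≠ 0 := two_ne p hp2
  obtain ⟨R, hR⟩ := almost_prime p hp2 K k hk
  refine ⟨R, ?_⟩
  intro d H hcard hd hadm
  obtain ⟨M, c, hM, hc1, hc2⟩ := exists_cover d H hd
  let e := H.equivFinOfCardEq hcard
  have hb : ∀ i : Fin k, ((e.symm i : H) : K[X]) ∈ H := fun i => (e.symm i).2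
  have hinj : ∀ i j : Fin k, i ≠ j → ((e.symm i : H) : K[X]) ≠ ((e.symm j : H) : K[X]) := by
    intro i j hij h
    exact hij (e.symm.injective (Subtype.ext h))
  obtain ⟨δ, hδ, n₀, h⟩ := hR (fun _ => 1) (fun i => ((e.symm i : H) : K[X]))
    (fun _ => one_ne_zero) (by
      intro i j hij
      show (1 : K[X]) * ((e.symm j : H) : K[X]) - 1 * ((e.symm i : H) : K[X]) ≠ 0
      rw [one_mul, one_mul, sub_ne_zero]
      exact (hinj i j hij).symm) (by
      intro P hP hPm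
      obtain ⟨r, hr⟩ := hadm P hP hPm
      refine ⟨r, fun i => ?_⟩
      show ¬ P ∣ 1 * r + ((e.symm i : H) : K[X])
      rw [one_mul]
      exact hr _ (hb i)) M c hM (fun i => hc1 _ (hb i))
  refine ⟨M.natDegree, δ, n₀ + R * d + d + 1, hδ, ?_⟩
  intro n hn σ hσ
  obtain ⟨S, hS1, hS2⟩ := h n (by omega) (fun i => if σ ((e.symm i : H) : K[X]) = 1 then 0 else 1)
  refine ⟨S, hS1, fun f hf => ?_⟩
  obtain ⟨hf1, hf2, hf3, hf4⟩ := hS2 f hf
  refine ⟨hf1, hf2, ?_, ?_⟩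
  · intro h hh
    have h3 := hf4 (e ⟨h, hh⟩)
    have h4 : ((e.symm (e ⟨h, hh⟩) : H) : K[X]) = h := by rw [Equiv.symm_apply_apply]
    obtain ⟨h5, h6, h7⟩ := h3
    have h8 : (1 : K[X]) * f + ((e.symm (e ⟨h, hh⟩) : H) : K[X]) = f + h := by rw [h4, one_mul]
    have h5' : Squarefree (f + h) := by rw [← h8]; exact h5
    have h6' : ∀ P : K[X], Irreducible P → P ∣ f + h → n ≤ R * P.natDegree := by
      intro P hP hPd
      exact h6 P hP (by rw [← h8] at hPd; exact hPd)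
    have h7' : (-1 : K) ^ om (f + h) = (-1) ^ (if σ h = 1 then 0 else 1) := by
      rw [← h8]
      have h9 : (-1 : K) ^ om ((1 : K[X]) * f + ((e.symm (e ⟨h, hh⟩) : H) : K[X])) =
        (-1) ^ (if σ ((e.symm (e ⟨h, hh⟩) : H) : K[X]) = 1 then 0 else 1) := h7
      rw [h9, h4]
    refine ⟨h5', ?_, h6', sign_of h2 _ _ (hσ h hh) h7'⟩
    have h9 := om_mul_le h5'.ne_zero n R h6'
    have hd' : (f + h).natDegree ≤ n := by
      have := hd h hh
      exact (natDegree_add_le _ _).trans (max_le hf2.le (by omega))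
    have h10 : R * (f + h).natDegree ≤ R * n := Nat.mul_le_mul_left _ hd'
    have h11 : om (f + h) * n ≤ R * n := h9.trans h10
    exact Nat.le_of_mul_le_mul_right h11 (by omega)
  · intro g hg hgH
    obtain ⟨P, hP, hPM, hPc⟩ := hc2 g hg hgH
    refine ⟨P, hP, natDegree_le_of_dvd hPM hM.ne_zero, ?_⟩
    have e1 : f + g = (f - c) + (c + g) := by ring
    rw [e1]
    exact dvd_add (hPM.trans hf3) hPc

end Pool.Agent.H617.SP
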