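import Mathlib
import Pool.Agent.H617.SP.J3

/-!
Almost prime values of linear forms with prescribed parities, uniformly in the forms.
-/

namespace Pool.Agent.H617.SP

set_option linter.unusedSectionVars false

open Polynomial Pool.Agent.H524

lemma lin_add {x y a b s : ℕ} (hx : x ≤ a * s) (hy : y ≤ b * s) : x + y ≤ (a + b) * s := by
  rw [add_mul]; exact add_le_add hx hy

lemma lin_mul {x a s : ℕ} (c : ℕ) (hx : x ≤ a * s) : c * x ≤ c * a * s := by
  rw [mul_assoc]; exact Nat.mul_le_mul_left _ hx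

lemma lin_const {s : ℕ} (c : ℕ) (hs : 1 ≤ s) : c ≤ c * s := Nat.le_mul_of_pos_right _ hs

/-- The arithmetic of the parameters, uniformly. -/
lemma numbers3 (p k Λ A : ℕ) : ∃ C : ℕ, ∀ D Dp κ ν θ u0 W EB C₂ : ℕ, Dp = k + Λ + 2 * D →
    κ ≤ Λ + D + (4 * Dp + 1) → ν = p * (4 * Dp + 1) → θ = p * κ + ν + 4 * Dp →
    u0 = 3 * (k * (θ + 2 * k + 1)) + k * θ → W = p * κ + u0 → EB = k * (2 * θ + (u0 + p)) →
    C₂ = EB + W + 1 → C₂ ≤ C * (D + 1) ∧
      p * ((A + 1) * (C₂ + 1) + C₂) + (Λ + D) + p * (A + 2) * D + 1 ≤ C * (D + 1) := by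
  obtain ⟨a₁, ha₁⟩ : ∃ a₁, a₁ = k + Λ + 2 := ⟨_, rfl⟩
  obtain ⟨a₂, ha₂⟩ : ∃ a₂, a₂ = Λ + 1 + (4 * a₁ + 1) := ⟨_, rfl⟩
  obtain ⟨a₃, ha₃⟩ : ∃ a₃, a₃ = p * (4 * a₁ + 1) := ⟨_, rfl⟩
  obtain ⟨a₄, ha₄⟩ : ∃ a₄, a₄ = p * a₂ + a₃ + 4 * a₁ := ⟨_, rfl⟩
  obtain ⟨a₅, ha₅⟩ : ∃ a₅, a₅ = 3 * (k * (a₄ + 2 * k + 1)) + k * a₄ := ⟨_, rfl⟩
  obtain ⟨a₆, ha₆⟩ : ∃ a₆, a₆ = p * a₂ + a₅ := ⟨_, rfl⟩
  obtain ⟨a₇, ha₇⟩ : ∃ a₇, a₇ = k * (2 * a₄ + (a₅ + p)) := ⟨_, rfl⟩
  obtain ⟨a₈, ha₈⟩ : ∃ a₈, a₈ = a₇ + a₆ + 1 := ⟨_, rfl⟩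
  refine ⟨p * ((A + 1) * (a₈ + 1) + a₈) + (Λ + 1) + p * (A + 2) * 1 + 1 + a₈, ?_⟩
  intro D Dp κ ν θ u0 W EB C₂ hDp hκ hν hθ hu0 hW hEB hC₂
  obtain ⟨s, hs⟩ : ∃ s, s = D + 1 := ⟨_, rfl⟩
  have hs1 : 1 ≤ s := by omega
  rw [← hs]
  have hDs : D ≤ 1 * s := by omega
  have h1 : Dp ≤ a₁ * s := by
    rw [hDp, ha₁]
    exact lin_add (lin_add (lin_const k hs1) (lin_const Λ hs1)) (by omega)
  have h1' : 4 * Dp + 1 ≤ (4 * a₁ + 1) * s := lin_add (lin_mul 4 h1) (lin_const 1 hs1)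
  have h2 : κ ≤ a₂ * s := by
    rw [ha₂]
    exact hκ.trans (lin_add (lin_add (lin_const Λ hs1) hDs) h1')
  have h3 : ν ≤ a₃ * s := by rw [hν, ha₃]; exact lin_mul p h1'
  have h4 : θ ≤ a₄ * s := by
    rw [hθ, ha₄]
    exact lin_add (lin_add (lin_mul p h2) h3) (lin_mul 4 h1)
  have h5 : u0 ≤ a₅ * s := by
    rw [hu0, ha₅]
    exact lin_add (lin_mul 3 (lin_mul k (lin_add (lin_add h4 (lin_const (2 * k) hs1))
      (lin_const 1 hs1)))) (lin_mul k h4)
  have h6 : W ≤ a₆ * s := by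
    rw [hW, ha₆]
    exact lin_add (lin_mul p h2) h5
  have h7 : EB ≤ a₇ * s := by
    rw [hEB, ha₇]
    exact lin_mul k (lin_add (lin_mul 2 h4) (lin_add h5 (lin_const p hs1)))
  have h8 : C₂ ≤ a₈ * s := by
    rw [hC₂, ha₈]
    exact lin_add (lin_add h7 h6) (lin_const 1 hs1)
  have h9 : p * ((A + 1) * (C₂ + 1) + C₂) ≤ p * ((A + 1) * (a₈ + 1) + a₈) * s :=
    lin_mul p (lin_add (lin_mul (A + 1) (lin_add h8 (lin_const 1 hs1))) h8)
  have h10 : p * ((A + 1) * (C₂ + 1) + C₂) + (Λ + D) + p * (A + 2) * D + 1 ≤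
      (p * ((A + 1) * (a₈ + 1) + a₈) + (Λ + 1) + p * (A + 2) * 1 + 1) * s :=
    lin_add (lin_add (lin_add h9 (lin_add (lin_const Λ hs1) hDs)) (lin_mul (p * (A + 2)) hDs))
      (lin_const 1 hs1)
  constructor
  · refine h8.trans (Nat.mul_le_mul_right _ (by omega))
  · refine h10.trans (Nat.mul_le_mul_right _ (by omega))

theorem almost_prime_uniform (p : ℕ) [hp : Fact p.Prime] (hp2 : p ≠ 2) (K : Type) [Field K] [Fintype K]
    [CharP K p] (k : ℕ) (hk : 1 ≤ k) :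
    ∃ (R C' : ℕ) (δ : ℝ), 0 < δ ∧ ∀ D₀ n : ℕ, C' * (D₀ + 1) ≤ n → ∀ a b : Fin k → K[X],
      (∀ i, a i ≠ 0) → (∀ i j, i ≠ j → a i * b j - a j * b i ≠ 0) →
      (∀ i, (a i).natDegree ≤ D₀ ∧ (b i).natDegree ≤ D₀) →
      (∀ P : K[X], Irreducible P → P.Monic → ∃ r : K[X], ∀ i, ¬ P ∣ a i * r + b i) →
      ∀ M c₀ : K[X], M.Monic → M.natDegree ≤ D₀ → (∀ i, IsCoprime (a i * c₀ + b i) M) →
      ∀ ε : Fin k → ℕ, ∃ S : Finset K[X],
        δ * (Fintype.card K : ℝ) ^ (n / p - C' * (D₀ + 1)) / (n : ℝ) ^ k ≤ S.card ∧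
        ∀ f ∈ S, f.Monic ∧ f.natDegree = n ∧ M ∣ f - c₀ ∧ ∀ i, Squarefree (a i * f + b i) ∧
          (∀ P : K[X], Irreducible P → P ∣ a i * f + b i → n ≤ R * P.natDegree) ∧
          om (a i * f + b i) ≤ R ∧
          (-1 : K) ^ om (a i * f + b i) = (-1) ^ ε i := by
  classical
  have hp3 : 3 ≤ p := by
    have := hp.out.two_le
    omega
  have hq1 : 1 < Fintype.card K := Fintype.one_lt_card
  obtain ⟨A, c₀, hc₀, hS⟩ := sieve_lower K k
  obtain ⟨Λ, hΛ⟩ : ∃ Λ, Λ = (lcmPoly K k).natDegree := ⟨_, rfl⟩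
  obtain ⟨C', hC'⟩ := numbers3 p k Λ A
  refine ⟨p * (A + 2), C', c₀, hc₀, ?_⟩
  intro D₀ n hn a b ha0 hab habD hadm M₀ c₀' hM₀ hMD hcM ε
  have hl0 : lcmPoly K k ≠ 0 := (monic_lcmPoly K k).ne_zero
  obtain ⟨c', hcc', hc'⟩ := exists_shift_class a b hadm (lcmPoly K k) M₀ c₀' hl0 hM₀.ne_zero hcM
  obtain ⟨ℓ, hℓ⟩ : ∃ ℓ, ℓ = lcmPoly K k * M₀ := ⟨_, rfl⟩
  have hℓm : ℓ.Monic := by rw [hℓ]; exact (monic_lcmPoly K k).mul hM₀
  have hℓd : ℓ.natDegree ≤ Λ + D₀ := by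
    rw [hℓ, (monic_lcmPoly K k).natDegree_mul hM₀, ← hΛ]; omega
  have hlℓ : lcmPoly K k ∣ ℓ := by rw [hℓ]; exact dvd_mul_right _ _
  have hMℓ : M₀ ∣ ℓ := by rw [hℓ]; exact dvd_mul_left _ _
  rw [← hℓ] at hc'
  obtain ⟨c, hcdef⟩ : ∃ c, c = c' %ₘ ℓ := ⟨_, rfl⟩
  have hce : c' = c + ℓ * (c' /ₘ ℓ) := by
    rw [hcdef]; exact (modByMonic_add_div c' ℓ).symm
  have hcd0 : c.natDegree ≤ Λ + D₀ := by
    rw [hcdef]
    exact (natDegree_modByMonic_le c' hℓm).trans hℓd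
  have hc : ∀ i, IsCoprime (a i * c + b i) ℓ := by
    intro i
    have h1 := hc' i
    have h2 : a i * c' + b i = (a i * c + b i) + ℓ * (a i * (c' /ₘ ℓ)) := by
      linear_combination (a i) * hce
    rw [h2] at h1
    exact (IsCoprime.add_mul_left_left_iff).mp h1
  have hcc : M₀ ∣ c - c₀' := by
    have h2 : c - c₀' = (c' - c₀') - ℓ * (c' /ₘ ℓ) := by linear_combination -hce
    rw [h2]
    exact dvd_sub hcc' (dvd_mul_of_dvd_left hMℓ _)
  obtain ⟨e, he⟩ : ∃ e : Fin k → K[X], e = fun i => a i * c + b i := ⟨_, rfl⟩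
  have hei : ∀ i, e i = a i * c + b i := by intro i; rw [he]
  have hXl : (X : K[X]) ∣ ℓ :=
    (dvd_lcmPoly X X_ne_zero (by rw [natDegree_X]; exact hk)).trans hlℓ
  have hcope : ∀ i, IsCoprime (e i) ℓ := by intro i; rw [hei]; exact hc i
  have he0 : ∀ i, e i ≠ 0 := by
    intro i h
    have h1 := hcope i
    rw [h, isCoprime_zero_left] at h1
    exact not_isUnit_X (isUnit_of_dvd_unit hXl h1)
  have hab' : ∀ i j, i ≠ j → a i * e j - a j * e i ≠ 0 := by
    intro i j hij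
    rw [hei, hei]
    have h1 := hab i j hij
    intro h
    apply h1
    rw [← h]
    ring
  have hcopa : ∀ i, IsCoprime (a i) (e i) := by
    intro i
    apply isCoprime_of_monic (he0 i)
    intro P hP hPm h1 h2
    obtain ⟨r, hr⟩ := hadm P hP hPm
    apply hr i
    rw [hei] at h2
    have h3 : P ∣ b i := (dvd_add_right (h1.mul_right _)).mp h2
    exact dvd_add (h1.mul_right _) h3
  obtain ⟨D, hD⟩ : ∃ D, D = k + Λ + 2 * D₀ := ⟨_, rfl⟩
  have haD : ∀ i, (a i).natDegree ≤ D := by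
    intro i
    have := (habD i).1
    omega
  have heD : ∀ i, (e i).natDegree ≤ D := by
    intro i
    have h6 := (habD i).1
    have h7 := (habD i).2
    rw [hei]
    refine (natDegree_add_le _ _).trans (max_le (natDegree_mul_le.trans ?_) ?_)
    · omega
    · omega
  -- the polynomials
  obtain ⟨Q, hQ⟩ : ∃ Q : K[X], Q = ℓ * X ^ (4 * D + 1) := ⟨_, rfl⟩
  have hQm : Q.Monic := by rw [hQ]; exact hℓm.mul (monic_X_pow _)
  have hQ0 : Q ≠ 0 := hQm.ne_zero
  obtain ⟨κ, hκ⟩ : ∃ κ, Q.natDegree = κ := ⟨_, rfl⟩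
  have hκ1 : κ = ℓ.natDegree + (4 * D + 1) := by
    rw [← hκ, hQ, hℓm.natDegree_mul (monic_X_pow _), natDegree_X_pow]
  have hlQ : ℓ ∣ Q := by rw [hQ]; exact dvd_mul_right _ _
  have hcopQ : ∀ i, IsCoprime (a i * Q) (e i) := by
    intro i
    refine (hcopa i).mul_left ?_
    rw [hQ]
    exact IsCoprime.mul_left (hcope i).symm
      (((hcope i).symm.of_isCoprime_of_dvd_left hXl).pow_left)
  obtain ⟨V, hV⟩ : ∃ V : K[X], V = (X ^ (4 * D + 1)) ^ p + X := ⟨_, rfl⟩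
  have hV1 : derivative V = 1 := by
    rw [hV, derivative_add, deriv_pow_p p, derivative_X, zero_add]
  have hVν : V.natDegree = p * (4 * D + 1) := by
    rw [hV, natDegree_add_eq_left_of_natDegree_lt]
    · rw [natDegree_pow, natDegree_X_pow]
    · rw [natDegree_X, natDegree_pow, natDegree_X_pow]
      nlinarith
  obtain ⟨ν, hν⟩ : ∃ ν, ν = p * (4 * D + 1) := ⟨_, rfl⟩
  rw [← hν] at hVν
  have hν4 : 4 * D < ν := by rw [hν]; nlinarith
  obtain ⟨θ, hθ⟩ : ∃ θ, θ = p * κ + ν + 4 * D := ⟨_, rfl⟩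
  obtain ⟨u0, hu0⟩ : ∃ u0, u0 = 3 * (k * (θ + 2 * k + 1)) + k * θ := ⟨_, rfl⟩
  obtain ⟨W, hW⟩ : ∃ W, W = p * κ + u0 := ⟨_, rfl⟩
  obtain ⟨EB, hEB⟩ : ∃ EB, EB = k * (2 * θ + (u0 + p)) := ⟨_, rfl⟩
  obtain ⟨C₂, hC₂⟩ : ∃ C₂, C₂ = EB + W + 1 := ⟨_, rfl⟩
  have hq0 : (0 : ℝ) < Fintype.card K := by
    have : 0 < Fintype.card K := by omega
    exact_mod_cast this
  obtain ⟨hCa, hCb⟩ := hC' D₀ D κ ν θ u0 W EB C₂ hD (by omega) hν hθ hu0 hW hEB hC₂
  obtain ⟨z, hz⟩ : ∃ z, z = (n - W) / p := ⟨_, rfl⟩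
  obtain ⟨hWn, hzE, hnum⟩ := numbers2 p A n z W EB C₂ (by omega) hC₂ hz (by omega)
  obtain ⟨u, hu⟩ : ∃ u, u = u0 + (n - W) % p := ⟨_, rfl⟩
  have hup : u < u0 + p := by
    have := Nat.mod_lt (n - W) (show 0 < p by omega)
    omega
  have hsum : p * κ + (u + p * z) = n := by
    have := Nat.div_add_mod (n - W) p
    rw [← hz] at this
    omega
  have hsumP : 3 * ∑ i : Fin k, (2 * (θ / 2 + (i : ℕ) + 1) + 1) + k * θ ≤ u := by
    have h1 : ∑ i : Fin k, (2 * (θ / 2 + (i : ℕ) + 1) + 1) ≤ k * (θ + 2 * k + 1) := by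
      refine (Finset.sum_le_card_nsmul _ _ (θ + 2 * k + 1) (fun i _ => ?_)).trans (by simp)
      have := i.2
      omega
    omega
  obtain ⟨U, hUm, hUd, B, P, T, β, hβ0, hBm, hBd, hrel0, hQB, hcop, hwr, hT0, hPi, hPm, hPodd,
    hPT, hPP, hPM, hPθ⟩ := exists_data_general p hp2 D a e ha0 he0 haD heD hab' κ ν θ Q V hQm hκ
      (by omega) (fun _ => 1) e (fun i => (one_mul _).symm) (fun i => one_dvd _) hcopQ hV1 hVν hν4
      hθ.ge u hsumP
  have hrel : ∀ i, a i * Q ^ p = C (β i) * B i := by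
    intro i
    rw [hrel0 i, mul_one]
  have hMd : ∀ i, (B i * U).natDegree = (B i).natDegree + u := by
    intro i
    rw [(hBm i).natDegree_mul hUm, hUd]
  have hNd : ∀ i, (B i * V + C (β i)⁻¹ * e i).natDegree ≤ (B i).natDegree + ν := by
    intro i
    refine (natDegree_add_le _ _).trans (max_le ?_ ?_)
    · refine natDegree_mul_le.trans (by rw [hVν])
    · refine (natDegree_C_mul_le _ _).trans ?_
      have := heD i
      omega
  have hwrd : ∀ i, (wr (B i * U) (B i * V + C (β i)⁻¹ * e i)).natDegree ≤ 2 * θ + (u0 + p) := by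
    intro i
    have h1 := natDegree_wr_le (B i * U) (B i * V + C (β i)⁻¹ * e i)
    have h2 := hNd i
    have h3 := hBd i
    rw [hMd i] at h1
    omega
  have hθEB : θ ≤ EB := by
    have h1 : 1 * (2 * θ + (u0 + p)) ≤ k * (2 * θ + (u0 + p)) := Nat.mul_le_mul_right _ hk
    omega
  have hzpz : z ≤ p * z := Nat.le_mul_of_pos_left _ (by omega)
  have hlarge : ∀ R : K[X], Irreducible R → ¬ R ∣ Q → k < Fintype.card K ^ R.natDegree := by
    intro R hR hRQ
    by_contra h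
    apply hRQ
    have h1 : R.natDegree < Fintype.card K ^ R.natDegree := Nat.lt_pow_self hq1
    exact ((dvd_lcmPoly R hR.ne_zero (by omega)).trans hlℓ).trans hlQ
  have hsumE : ∑ i, (wr (B i * U) (B i * V + C (β i)⁻¹ * e i)).natDegree ≤ EB := by
    rw [hEB]
    refine (Finset.sum_le_card_nsmul _ _ (2 * θ + (u0 + p)) (fun i _ => hwrd i)).trans (by simp)
  obtain ⟨E, r, hEm, hEd, hE⟩ := all_parities_strong p hp2 (fun i => B i * U)
    (fun i => B i * V + C (β i)⁻¹ * e i) P T (fun i => (hBm i).mul hUm) hcop hwr hT0 hPi hPm hPodd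
    hPT hPP hPM (by
      intro i
      have h1 := hPθ i
      have h2 : θ ≤ (P i).natDegree - 1 := by omega
      have h3 : θ < Fintype.card K ^ θ := Nat.lt_pow_self hq1
      have h4 := Nat.pow_le_pow_right (n := Fintype.card K) (by omega) h2
      have h5 : k ≤ D := by omega
      omega) (by
      intro R hR hRm
      by_cases h : R ∣ Q
      · right
        intro i
        exact dvd_mul_of_dvd_left (h.trans (hQB i)) _
      · exact Or.inl (hlarge R hR h)) z (by omega)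
    (by
      intro i
      have h1 := hNd i
      show (B i * V + C (β i)⁻¹ * e i).natDegree < (B i * U).natDegree + p * z
      rw [hMd i]
      omega)
    (by
      intro i
      show (wr (B i * U) (B i * V + C (β i)⁻¹ * e i)).natDegree ≤ (B i * U).natDegree + p * z
      have h1 := natDegree_wr_le (B i * U) (B i * V + C (β i)⁻¹ * e i)
      have h2 := hNd i
      have h3 := hBd i
      omega)
    (by
      show ∑ i, (wr (B i * U) (B i * V + C (β i)⁻¹ * e i)).natDegree ≤ z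
      omega) ε
  have hEd' : E.natDegree ≤ EB := by
    rw [hEd]
    exact hsumE
  obtain ⟨L, hL⟩ : ∃ L, L = z - E.natDegree := ⟨_, rfl⟩
  obtain ⟨m, hm⟩ : ∃ m, m = L / (A + 1) := ⟨_, rfl⟩
  obtain ⟨hm1, hmn, hAm, hnL, hez, hdeg⟩ := hnum E.natDegree L m hEd' hL hm
  obtain ⟨Ω, hΩ⟩ := exists_bad p (fun i => B i * U) (fun i => B i * V + C (β i)⁻¹ * e i) hcop
  obtain ⟨S, hS1, hS2⟩ := hS L m (Q * E) E (r %ₘ E + E * X ^ L) Ω hm1 hAm (dvd_mul_left _ _) (by
    intro R hRm hR hRQE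
    obtain ⟨h1, h2, h3⟩ := hΩ R hRm hR
    have h4 := hlarge R hR (fun h => hRQE (h.mul_right _))
    exact ⟨h1, by omega, h2⟩)
  let Zf : K[X] → K[X] := fun x => r %ₘ E + E * X ^ L + E * x
  let Ff : K[X] → K[X] := fun x => c + Q ^ p * (U * Zf x ^ p + V)
  have hFinj : Function.Injective Ff := by
    intro x y hxy
    have h1 : c + Q ^ p * (U * Zf x ^ p + V) = c + Q ^ p * (U * Zf y ^ p + V) := hxy
    have h2 := mul_left_cancel₀ (pow_ne_zero p hQ0) (add_left_cancel h1)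
    have h3 := add_right_cancel h2
    have h4 := mul_left_cancel₀ hUm.ne_zero h3
    have h5 : (Zf x - Zf y) ^ p = 0 := by
      rw [sub_pow_char (p := p), h4, sub_self]
    have h6 : Zf x - Zf y = 0 := pow_eq_zero_iff (by omega) |>.mp h5
    have h7 : r %ₘ E + E * X ^ L + E * x = r %ₘ E + E * X ^ L + E * y := sub_eq_zero.mp h6
    exact mul_left_cancel₀ hEm.ne_zero (add_left_cancel h7)
  refine ⟨S.image Ff, ?_, ?_⟩
  · rw [Finset.card_image_of_injective _ hFinj]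
    refine le_trans ?_ hS1
    have h1 : (Fintype.card K : ℝ) ^ (n / p - C' * (D₀ + 1)) ≤
        (Fintype.card K : ℝ) ^ L := by
      exact pow_le_pow_right₀ (by exact_mod_cast hq1.le) (by omega)
    have hm0 : (0 : ℝ) < m := by exact_mod_cast hm1
    have h2 : (0 : ℝ) < (m : ℝ) ^ k := by positivity
    have h3 : (m : ℝ) ^ k ≤ (n : ℝ) ^ k :=
      pow_le_pow_left₀ hm0.le (by exact_mod_cast hmn) k
    calc c₀ * (Fintype.card K : ℝ) ^ (n / p - C' * (D₀ + 1)) / (n : ℝ) ^ k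
        ≤ c₀ * (Fintype.card K : ℝ) ^ (n / p - C' * (D₀ + 1)) / (m : ℝ) ^ k :=
          div_le_div_of_nonneg_left (by positivity) h2 h3
      _ ≤ c₀ * (Fintype.card K : ℝ) ^ L / (m : ℝ) ^ k := by
          apply div_le_div_of_nonneg_right _ h2.le
          exact mul_le_mul_of_nonneg_left h1 hc₀.le
  · intro f hf
    rw [Finset.mem_image] at hf
    obtain ⟨x, hx, rfl⟩ := hf
    obtain ⟨hxL, hxs⟩ := hS2 x hx
    have hXx : (X ^ L + x : K[X]).Monic := monic_X_pow_add hxL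
    have hXd : (X ^ L + x : K[X]).natDegree = L := by
      rw [natDegree_add_eq_left_of_degree_lt (by rw [degree_X_pow]; exact hxL), natDegree_X_pow]
    obtain ⟨hZm, hZd, hZr⟩ := monic_rep hEm r (X ^ L + x) hXx
    have hZe : r %ₘ E + E * (X ^ L + x) = Zf x := by
      show r %ₘ E + E * (X ^ L + x) = r %ₘ E + E * X ^ L + E * x
      ring
    rw [hZe] at hZm hZd hZr
    have hZd' : (Zf x).natDegree = z := by rw [hZd, hXd]; omega
    have hin : (U * Zf x ^ p + V).Monic ∧ (U * Zf x ^ p + V).natDegree = u + p * z := by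
      have h1 := shape p (by omega) U V (Zf x) z hUm hZm hZd' (by rw [hVν, hUd]; omega)
      rw [hUd] at h1
      exact h1
    have hgm : (Q ^ p * (U * Zf x ^ p + V)).Monic := (hQm.pow p).mul hin.1
    have hgd : (Q ^ p * (U * Zf x ^ p + V)).natDegree = n := by
      rw [(hQm.pow p).natDegree_mul hin.1, hQm.natDegree_pow, hκ, hin.2, hsum]
    have hcd : c.natDegree < (Q ^ p * (U * Zf x ^ p + V)).natDegree := by
      rw [hgd]; omega
    refine ⟨hgm.add_of_right ?_, ?_, ?_, ?_⟩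
    · exact degree_lt_degree hcd
    · show (c + Q ^ p * (U * Zf x ^ p + V)).natDegree = n
      rw [natDegree_add_eq_right_of_natDegree_lt hcd, hgd]
    · have h1 : Ff x - c₀' = (c - c₀') + Q ^ p * (U * Zf x ^ p + V) := by
        show c + Q ^ p * (U * Zf x ^ p + V) - c₀' = _
        ring
      rw [h1]
      refine dvd_add hcc (dvd_mul_of_dvd_left ?_ _)
      exact (hMℓ.trans hlQ).trans (dvd_pow_self _ (by omega))
    · intro i
      obtain ⟨h1, h2, h3⟩ := hE (Zf x) hZm hZd' hZr i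
      have hu1 : IsUnit (C (β i)) := isUnit_C.mpr (IsUnit.mk0 _ (hβ0 i))
      have hCC : C (β i) * C (β i)⁻¹ = (1 : K[X]) := by
        rw [← C_mul, mul_inv_cancel₀ (hβ0 i), C_1]
      have hsq := sqf_of_coprime p (B i * U) (B i * V + C (β i)⁻¹ * e i) (Zf x) h1
      have hval : a i * Ff x + b i =
          C (β i) * (B i * U * Zf x ^ p + (B i * V + C (β i)⁻¹ * e i)) := by
        show a i * (c + Q ^ p * (U * Zf x ^ p + V)) + b i = _
        linear_combination (U * Zf x ^ p + V) * hrel i - (e i) * hCC - hei i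
      have hsqv : Squarefree (a i * Ff x + b i) := by
        rw [hval]
        exact hsq.squarefree_of_dvd ((hu1.mul_left_dvd).mpr dvd_rfl)
      have hbig : ∀ R : K[X], Irreducible R → R ∣ a i * Ff x + b i →
          n ≤ p * (A + 2) * R.natDegree := by
        rw [hval]
        intro R hR hRd
        obtain ⟨R', hR'm, hR'i, hR'R⟩ := exists_monic_irreducible_factor R hR.not_isUnit
        have hR'd : R' ∣ B i * U * Zf x ^ p + (B i * V + C (β i)⁻¹ * e i) :=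
          (hu1.dvd_mul_left).mp (hR'R.trans hRd)
        have hle : R'.natDegree ≤ R.natDegree := natDegree_le_of_dvd hR'R hR.ne_zero
        have hlt : m < R'.natDegree := by
          by_contra hcon
          by_cases hQE : R' ∣ Q * E
          · rcases hR'i.prime.dvd_or_dvd hQE with h4 | h4
            · have h5 : R' ∣ B i * U := dvd_mul_of_dvd_left (h4.trans (hQB i)) _
              have h6 : R' ∣ B i * V + C (β i)⁻¹ * e i :=
                (dvd_add_right (h5.mul_right _)).mp hR'd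
              exact hR'i.not_isUnit ((hcop i).isUnit_of_dvd' h5 h6)
            · exact hR'i.not_isUnit (h3.isUnit_of_dvd' hR'd h4)
          · have h4 := (hΩ R' hR'm hR'i).2.2 (Zf x) (fun s hs => by
              exact hxs R' hR'm hR'i (by omega) hQE s hs) i
            exact h4 hR'd
        exact (hdeg _ hlt).trans (Nat.mul_le_mul_left _ hle)
      refine ⟨hsqv, hbig, ?_, ?_⟩
      · have h6 := om_mul_le hsqv.ne_zero n (p * (A + 2)) hbig
        have hfd : (Ff x).natDegree ≤ n := by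
          show (c + Q ^ p * (U * Zf x ^ p + V)).natDegree ≤ n
          rw [natDegree_add_eq_right_of_natDegree_lt hcd, hgd]
        have hd : (a i * Ff x + b i).natDegree ≤ n + D₀ := by
          have h7 := (habD i).1
          have h8 := (habD i).2
          refine (natDegree_add_le _ _).trans (max_le (natDegree_mul_le.trans ?_) ?_)
          · omega
          · omega
        have h7 : p * (A + 2) * (a i * Ff x + b i).natDegree ≤ p * (A + 2) * (n + D₀) :=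
          Nat.mul_le_mul_left _ hd
        by_contra hcon
        have h8 : (p * (A + 2) + 1) * n ≤ om (a i * Ff x + b i) * n :=
          Nat.mul_le_mul_right _ (by omega)
        have e1 : (p * (A + 2) + 1) * n = p * (A + 2) * n + n := by ring
        have e2 : p * (A + 2) * (n + D₀) = p * (A + 2) * n + p * (A + 2) * D₀ := by ring
        omega
      · rw [hval, om_mul hu1.ne_zero hsq.ne_zero, om_of_isUnit hu1, zero_add]
        exact h2

end Pool.Agent.H617.SP
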