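import Mathlib
import Pool.Agent.H617.SP.J4
import Pool.Agent.H617.SP.J5

/-!
Consecutive almost prime values, uniformly in the window.
-/

namespace Pool.Agent.H617.SP

set_option linter.unusedSectionVars false

open Polynomial
open Pool.Agent.H694.Typ (Irn mem_Irn irn_ge)

theorem four_mul_le {e : ℕ} (he : 4 ≤ e) : 4 * e ≤ 2 ^ e := by
  induction e, he using Nat.le_induction with
  | base => norm_num
  | succ m hm ih =>
    have h3 : 2 ^ (m + 1) = 2 ^ m * 2 := pow_succ _ _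
    omega

/-- many irreducible polynomials -/
theorem many_irn (K : Type) [Field K] [Fintype K] (d : ℕ) :
    Fintype.card K ^ (d + 1) ≤ (Irn K (2 * d + 8)).card := by
  have h1 := irn_ge (k := K) (d := 2 * d + 8) (by omega)
  have hq : 2 ≤ Fintype.card K := Fintype.one_lt_card
  obtain ⟨e, he⟩ : ∃ e, e = d + 4 := ⟨_, rfl⟩
  have he2 : 2 * d + 8 = e + e := by omega
  have he3 : (e + e) / 2 = e := by omega
  rw [he2, he3] at h1
  have h4 : 4 * e ≤ 2 ^ e := four_mul_le (by omega)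
  have h5 : 2 ^ e ≤ Fintype.card K ^ e := Nat.pow_le_pow_left hq e
  have hpow : Fintype.card K ^ (e + e) = Fintype.card K ^ e * Fintype.card K ^ e := pow_add _ _ _
  have h7 : 16 ≤ Fintype.card K ^ e := by omega
  have h2 : 4 * Fintype.card K ^ e ≤ Fintype.card K ^ (e + e) := by
    rw [hpow]
    exact Nat.mul_le_mul_right _ (by omega)
  have h6 : Fintype.card K ^ (e + e) ≤ 4 * e * (Irn K (e + e)).card := by
    have h8 : 4 * e * (Irn K (e + e)).card = 2 * ((e + e) * (Irn K (e + e)).card) := by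
      ring
    omega
  have h9 : Fintype.card K ^ e * Fintype.card K ^ e ≤
      Fintype.card K ^ e * (Irn K (e + e)).card := by
    rw [← hpow]
    exact h6.trans (Nat.mul_le_mul_right _ (by omega))
  rw [he2]
  exact (Nat.pow_le_pow_right (by omega) (by omega : d + 1 ≤ e)).trans
    (Nat.le_of_mul_le_mul_left h9 (by omega))

/-- A class of small modulus in which all the other translates have small factors. -/
lemma exists_cover_small {K : Type} [Field K] [Fintype K] (d : ℕ) (H : Finset K[X])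
    (hH : ∀ h ∈ H, h.natDegree ≤ d) :
    ∃ M c : K[X], M.Monic ∧ M.natDegree ≤ (2 * d + 8) * Fintype.card K ^ (d + 1) ∧
      (∀ h ∈ H, IsCoprime (1 * c + h) M) ∧
      ∀ g : K[X], g.natDegree ≤ d → g ∉ H →
        ∃ P : K[X], Irreducible P ∧ P.natDegree ≤ 2 * d + 8 ∧ P ∣ M ∧ P ∣ c + g := by
  classical
  obtain ⟨G, hG⟩ : ∃ G : Finset K[X], G = (Pool.Agent.H675.Par.SWL.Wn K (d + 1)) \ H := ⟨_, rfl⟩
  have hmem : ∀ g : K[X], g ∈ G ↔ g.natDegree ≤ d ∧ g ∉ H := by
    intro g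
    rw [hG, Finset.mem_sdiff, Pool.Agent.H675.Par.SWL.mem_Wn]
    have h1 : g.degree < ((d + 1 : ℕ) : WithBot ℕ) ↔ g.natDegree ≤ d := by
      by_cases hg : g = 0
      · rw [hg, degree_zero, natDegree_zero]
        exact ⟨fun _ => Nat.zero_le _, fun _ => WithBot.bot_lt_coe _⟩
      · rw [← natDegree_lt_iff_degree_lt hg]
        omega
    rw [h1]
  have hGc : G.card ≤ Fintype.card K ^ (d + 1) := by
    rw [hG, ← Pool.Agent.H675.Par.SWL.card_Wn (K := K) (d + 1)]
    exact Finset.card_le_card Finset.sdiff_subset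
  obtain ⟨emb⟩ : Nonempty (Fin G.card ↪ (Irn K (2 * d + 8))) := by
    apply Function.Embedding.nonempty_of_card_le
    rw [Fintype.card_fin, Fintype.card_coe]
    exact hGc.trans (many_irn K d)
  obtain ⟨π, hπ⟩ : ∃ π : Fin G.card → K[X], π = fun j => ((emb j : Irn K (2 * d + 8)) : K[X]) :=
    ⟨_, rfl⟩
  have hπ' : ∀ j, π j = ((emb j : Irn K (2 * d + 8)) : K[X]) := by intro j; rw [hπ]
  have hπI : ∀ j, (π j).Monic ∧ (π j).natDegree = 2 * d + 8 ∧ Irreducible (π j) := by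
    intro j
    rw [hπ']
    exact mem_Irn.mp (emb j).2
  have hcop : ∀ i j, i ≠ j → IsCoprime (π i) (π j) := by
    intro i j hij
    rw [((hπI i).2.2).coprime_iff_not_dvd]
    intro h
    have h1 := eq_of_monic_of_associated (hπI i).1 (hπI j).1
      ((hπI i).2.2.associated_of_dvd (hπI j).2.2 h)
    rw [hπ', hπ'] at h1
    exact hij (emb.injective (Subtype.ext h1))
  obtain ⟨c, hc⟩ := crt π hcop (fun j => -((G.equivFin.symm j : G) : K[X]))
  refine ⟨∏ j, π j, c, monic_prod_of_monic _ _ (fun j _ => (hπI j).1), ?_, ?_, ?_⟩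
  · rw [natDegree_prod_of_monic _ _ (fun j _ => (hπI j).1)]
    refine (Finset.sum_le_card_nsmul _ _ (2 * d + 8) (fun j _ => (hπI j).2.1.le)).trans ?_
    rw [Finset.card_univ, Fintype.card_fin, smul_eq_mul, mul_comm]
    exact Nat.mul_le_mul_left _ hGc
  · intro h hh
    apply IsCoprime.prod_right
    intro j _
    apply IsCoprime.symm
    rw [((hπI j).2.2).coprime_iff_not_dvd]
    intro h1
    have h2 := hc j
    obtain ⟨g, hg⟩ : ∃ g : K[X], g = ((G.equivFin.symm j : G) : K[X]) := ⟨_, rfl⟩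
    have hgG : g ∈ G := by rw [hg]; exact (G.equivFin.symm j).2
    rw [← hg] at h2
    have h3 : π j ∣ h - g := by
      have e : h - g = (1 * c + h) - (c - -g) := by ring
      rw [e]
      exact dvd_sub h1 h2
    have h4 : h - g ≠ 0 := by
      intro h0
      have h5 := sub_eq_zero.mp h0
      rw [h5] at hh
      exact ((hmem g).mp hgG).2 hh
    have h5 := natDegree_le_of_dvd h3 h4
    rw [(hπI j).2.1] at h5
    have h6 := natDegree_sub_le_of (hH h hh) ((hmem g).mp hgG).1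
    omega
  · intro g hgd hgH
    have hgG : g ∈ G := (hmem g).mpr ⟨hgd, hgH⟩
    refine ⟨π (G.equivFin ⟨g, hgG⟩), (hπI _).2.2, (hπI _).2.1.le,
      Finset.dvd_prod_of_mem _ (Finset.mem_univ _), ?_⟩
    have h2 := hc (G.equivFin ⟨g, hgG⟩)
    rw [Equiv.symm_apply_apply, sub_neg_eq_add] at h2
    exact h2

theorem consecutive_uniform (p : ℕ) [hp : Fact p.Prime] (hp2 : p ≠ 2) (K : Type) [Field K]
    [Fintype K] [CharP K p] (k : ℕ) (hk : 1 ≤ k) :
    ∃ (R C : ℕ) (δ : ℝ), 0 < δ ∧ ∀ d n : ℕ, C * ((d + 1) * Fintype.card K ^ d) ≤ n →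
      ∀ H : Finset K[X], H.card = k → (∀ h ∈ H, h.natDegree ≤ d) →
      (∀ P : K[X], Irreducible P → P.Monic → ∃ r : K[X], ∀ h ∈ H, ¬ P ∣ r + h) →
      ∀ σ : K[X] → ℤ, (∀ h ∈ H, σ h = 1 ∨ σ h = -1) → ∃ S : Finset K[X],
          δ * (Fintype.card K : ℝ) ^ (n / p - C * ((d + 1) * Fintype.card K ^ d)) / (n : ℝ) ^ k ≤
            S.card ∧
          ∀ f ∈ S, f.Monic ∧ f.natDegree = n ∧
            (∀ h ∈ H, Squarefree (f + h) ∧ om (f + h) ≤ R ∧
              (∀ P : K[X], Irreducible P → P ∣ f + h → n ≤ R * P.natDegree) ∧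
              (-1 : ℤ) ^ om (f + h) = σ h) ∧
            ∀ g : K[X], g.natDegree ≤ d → g ∉ H →
              ∃ P : K[X], Irreducible P ∧ P.natDegree ≤ 2 * d + 8 ∧ P ∣ f + g := by
  classical
  have h2 : (2 : K) ≠ 0 := two_ne p hp2
  obtain ⟨R, C', δ, hδ, hR⟩ := almost_prime_uniform p hp2 K k hk
  obtain ⟨q, hq⟩ : ∃ q, q = Fintype.card K := ⟨_, rfl⟩
  refine ⟨R, C' * (8 * q + 1), δ, hδ, ?_⟩
  intro d n hn H hcard hd hadm σ hσ
  obtain ⟨M, c, hM, hMd, hc1, hc2⟩ := exists_cover_small d H hd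
  have hq1 : 1 ≤ q := by rw [hq]; exact Fintype.card_pos
  rw [← hq] at hn hMd ⊢
  have hqd : 1 ≤ q ^ d := Nat.one_le_pow _ _ hq1
  have hsize : (2 * d + 8) * q ^ (d + 1) + 1 ≤ (8 * q + 1) * ((d + 1) * q ^ d) := by
    have h3 : (2 * d + 8) * q ^ (d + 1) ≤ 8 * (d + 1) * q ^ (d + 1) :=
      Nat.mul_le_mul_right _ (by omega)
    have h4 : 8 * (d + 1) * q ^ (d + 1) = 8 * q * ((d + 1) * q ^ d) := by ring
    have h5 : 1 ≤ (d + 1) * q ^ d := Nat.one_le_iff_ne_zero.mpr (by positivity)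
    have h6 : (8 * q + 1) * ((d + 1) * q ^ d) = 8 * q * ((d + 1) * q ^ d) + (d + 1) * q ^ d := by
      ring
    omega
  have hle : C' * ((2 * d + 8) * q ^ (d + 1) + 1) ≤ C' * (8 * q + 1) * ((d + 1) * q ^ d) := by
    rw [mul_assoc]
    exact Nat.mul_le_mul_left _ hsize
  have hd8 : d ≤ (2 * d + 8) * q ^ (d + 1) := by
    have h5 : 1 ≤ q ^ (d + 1) := Nat.one_le_pow _ _ hq1
    have h6 : (2 * d + 8) * 1 ≤ (2 * d + 8) * q ^ (d + 1) := Nat.mul_le_mul_left _ h5
    omega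
  let e := H.equivFinOfCardEq hcard
  have hb : ∀ i : Fin k, ((e.symm i : H) : K[X]) ∈ H := fun i => (e.symm i).2
  have hinj : ∀ i j : Fin k, i ≠ j → ((e.symm i : H) : K[X]) ≠ ((e.symm j : H) : K[X]) := by
    intro i j hij h
    exact hij (e.symm.injective (Subtype.ext h))
  obtain ⟨S, hS1, hS2⟩ := hR ((2 * d + 8) * q ^ (d + 1)) n (hle.trans hn) (fun _ => 1)
    (fun i => ((e.symm i : H) : K[X])) (fun _ => one_ne_zero) (by
      intro i j hij
      show (1 : K[X]) * ((e.symm j : H) : K[X]) - 1 * ((e.symm i : H) : K[X]) ≠ 0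
      rw [one_mul, one_mul, sub_ne_zero]
      exact (hinj i j hij).symm) (by
      intro i
      refine ⟨?_, ?_⟩
      · show (1 : K[X]).natDegree ≤ _
        rw [natDegree_one]
        exact Nat.zero_le _
      · exact (hd _ (hb i)).trans hd8) (by
      intro P hP hPm
      obtain ⟨r, hr⟩ := hadm P hP hPm
      refine ⟨r, fun i => ?_⟩
      show ¬ P ∣ 1 * r + ((e.symm i : H) : K[X])
      rw [one_mul]
      exact hr _ (hb i)) M c hM hMd (fun i => hc1 _ (hb i))
    (fun i => if σ ((e.symm i : H) : K[X]) = 1 then 0 else 1)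
  refine ⟨S, ?_, fun f hf => ?_⟩
  · refine le_trans ?_ hS1
    rw [← hq]
    apply div_le_div_of_nonneg_right _ (by positivity)
    apply mul_le_mul_of_nonneg_left _ hδ.le
    exact pow_le_pow_right₀ (by exact_mod_cast hq1) (by omega)
  obtain ⟨hf1, hf2, hf3, hf4⟩ := hS2 f hf
  refine ⟨hf1, hf2, ?_, ?_⟩
  · intro h hh
    have h3 := hf4 (e ⟨h, hh⟩)
    have h4 : ((e.symm (e ⟨h, hh⟩) : H) : K[X]) = h := by rw [Equiv.symm_apply_apply]
    obtain ⟨h5, h6, h7, h8⟩ := h3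
    have h10 : (1 : K[X]) * f + ((e.symm (e ⟨h, hh⟩) : H) : K[X]) = f + h := by rw [h4, one_mul]
    have h11 : (-1 : K) ^ om (f + h) = (-1) ^ (if σ h = 1 then 0 else 1) := by
      rw [← h10]
      have h9 : (-1 : K) ^ om ((1 : K[X]) * f + ((e.symm (e ⟨h, hh⟩) : H) : K[X])) =
        (-1) ^ (if σ ((e.symm (e ⟨h, hh⟩) : H) : K[X]) = 1 then 0 else 1) := h8
      rw [h9, h4]
    refine ⟨by rw [← h10]; exact h5, by rw [← h10]; exact h7, ?_,
      sign_of h2 _ _ (hσ h hh) h11⟩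
    intro P hP hPd
    exact h6 P hP (by rw [← h10] at hPd; exact hPd)
  · intro g hg hgH
    obtain ⟨P, hP, hPd, hPM, hPc⟩ := hc2 g hg hgH
    refine ⟨P, hP, hPd, ?_⟩
    have e1 : f + g = (f - c) + (c + g) := by ring
    rw [e1]
    exact dvd_add (hPM.trans hf3) hPc

end Pool.Agent.H617.SP
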