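import Mathlib
import Pool.Agent.H617.SP.J5

/-!
Values of arbitrary systems of linear forms with almost prime cofactors of prescribed parities.
-/

namespace Pool.Agent.H617.SP

set_option linter.unusedSectionVars false

open Polynomial Pool.Agent.H524

theorem almost_prime_fixed (p : ℕ) [hp : Fact p.Prime] (hp2 : p ≠ 2) (K : Type) [Field K] [Fintype K]
    [CharP K p] (k : ℕ) (hk : 1 ≤ k) :
    ∃ (R C' : ℕ) (δ : ℝ), 0 < δ ∧ ∀ D₁ n : ℕ, C' * (k * D₁ + 1) ≤ n → ∀ a b : Fin k → K[X],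
      (∀ i, a i ≠ 0) → (∀ i, b i ≠ 0) → (∀ i j, i ≠ j → a i * b j - a j * b i ≠ 0) →
      (∀ i, (a i).natDegree ≤ D₁ ∧ (b i).natDegree ≤ D₁) →
      ∀ ε : Fin k → ℕ, ∃ S : Finset K[X],
        δ * (Fintype.card K : ℝ) ^ (n / p - C' * (k * D₁ + 1)) / (n : ℝ) ^ k ≤ S.card ∧
        ∀ f ∈ S, f.Monic ∧ f.natDegree = n ∧ ∀ i, ∃ G, a i * f + b i = b i * G ∧ Squarefree G ∧
          IsCoprime (b i) G ∧
          (∀ P : K[X], Irreducible P → P ∣ G → n ≤ R * P.natDegree) ∧ om G ≤ R ∧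
          (-1 : K) ^ om G = (-1) ^ ε i := by
  classical
  have hp3 : 3 ≤ p := by
    have := hp.out.two_le
    omega
  have hq1 : 1 < Fintype.card K := Fintype.one_lt_card
  obtain ⟨A, c₀, hc₀, hS⟩ := sieve_lower K k
  obtain ⟨Λ, hΛ⟩ : ∃ Λ, Λ = (lcmPoly K k).natDegree := ⟨_, rfl⟩
  obtain ⟨C', hC'⟩ := numbers3 p k Λ A
  refine ⟨p * (A + 2), C', c₀, hc₀, ?_⟩
  intro D₁ n hn a b ha0 hb0 hab habD ε
  obtain ⟨D₀, hD₀⟩ : ∃ D₀, D₀ = k * D₁ := ⟨_, rfl⟩
  rw [← hD₀] at hn ⊢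
  have hD₁₀ : D₁ ≤ D₀ := by rw [hD₀]; exact Nat.le_mul_of_pos_left _ hk
  have hl0 : lcmPoly K k ≠ 0 := (monic_lcmPoly K k).ne_zero
  obtain ⟨prb, hprb⟩ : ∃ prb : K[X], prb = ∏ i, (b i * C (b i).leadingCoeff⁻¹) := ⟨_, rfl⟩
  have hbm : ∀ i, (b i * C (b i).leadingCoeff⁻¹).Monic := fun i => monic_mul_leadingCoeff_inv (hb0 i)
  have hprm : prb.Monic := by rw [hprb]; exact monic_prod_of_monic _ _ (fun i _ => hbm i)
  have hprd : prb.natDegree ≤ D₀ := by
    rw [hprb, natDegree_prod_of_monic _ _ (fun i _ => hbm i), hD₀]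
    refine (Finset.sum_le_card_nsmul _ _ D₁ (fun i _ => ?_)).trans (by simp)
    rw [natDegree_mul_C (inv_ne_zero (leadingCoeff_ne_zero.mpr (hb0 i)))]
    exact (habD i).2
  obtain ⟨ℓ, hℓ⟩ : ∃ ℓ, ℓ = lcmPoly K k * prb := ⟨_, rfl⟩
  have hℓm : ℓ.Monic := by rw [hℓ]; exact (monic_lcmPoly K k).mul hprm
  have hℓd : ℓ.natDegree ≤ Λ + D₀ := by
    rw [hℓ, (monic_lcmPoly K k).natDegree_mul hprm, ← hΛ]; omega
  have hlℓ : lcmPoly K k ∣ ℓ := by rw [hℓ]; exact dvd_mul_right _ _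
  obtain ⟨D, hD⟩ : ∃ D, D = k + Λ + 2 * D₀ := ⟨_, rfl⟩
  have haD : ∀ i, (a i).natDegree ≤ D := by
    intro i
    have := (habD i).1
    omega
  have hbD : ∀ i, (b i).natDegree ≤ D := by
    intro i
    have := (habD i).2
    omega
  -- the polynomials
  obtain ⟨Q, hQ⟩ : ∃ Q : K[X], Q = ℓ * X ^ (4 * D + 1) := ⟨_, rfl⟩
  have hQm : Q.Monic := by rw [hQ]; exact hℓm.mul (monic_X_pow _)
  have hQ0 : Q ≠ 0 := hQm.ne_zero
  obtain ⟨κ, hκ⟩ : ∃ κ, Q.natDegree = κ := ⟨_, rfl⟩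
  have hκ1 : κ = ℓ.natDegree + (4 * D + 1) := by
    rw [← hκ, hQ, hℓm.natDegree_mul (monic_X_pow _), natDegree_X_pow]
  have hlQ : ℓ ∣ Q := by rw [hQ]; exact dvd_mul_right _ _
  have hQb : ∀ i, b i ∣ Q := by
    intro i
    refine Dvd.dvd.trans ?_ hlQ
    rw [hℓ, hprb]
    refine dvd_mul_of_dvd_right ?_ _
    exact (dvd_mul_right _ _).trans (Finset.dvd_prod_of_mem _ (Finset.mem_univ i))
  obtain ⟨V, hV⟩ : ∃ V : K[X], V = (X ^ (4 * D + 1)) ^ p + X := ⟨_, rfl⟩
  have hV1 : derivative V = 1 := by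
    rw [hV, derivative_add, deriv_pow_p p, derivative_X, zero_add]
  have hVν : V.natDegree = p * (4 * D + 1) := by
    rw [hV, natDegree_add_eq_left_of_natDegree_lt]
    · rw [natDegree_pow, natDegree_X_pow]
    · rw [natDegree_X, natDegree_pow, natDegree_X_pow]
      nlinarith
  obtain ⟨ν, hν⟩ : ∃ ν, ν = p * (4 * D + 1) := ⟨_, rfl⟩
  rw [← hν] at hVν
  have hν4 : 4 * D < ν := by rw [hν]; nlinarith
  obtain ⟨θ, hθ⟩ : ∃ θ, θ = p * κ + ν + 4 * D := ⟨_, rfl⟩
  obtain ⟨u0, hu0⟩ : ∃ u0, u0 = 3 * (k * (θ + 2 * k + 1)) + k * θ := ⟨_, rfl⟩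
  obtain ⟨W, hW⟩ : ∃ W, W = p * κ + u0 := ⟨_, rfl⟩
  obtain ⟨EB, hEB⟩ : ∃ EB, EB = k * (2 * θ + (u0 + p)) := ⟨_, rfl⟩
  obtain ⟨C₂, hC₂⟩ : ∃ C₂, C₂ = EB + W + 1 := ⟨_, rfl⟩
  have hq0 : (0 : ℝ) < Fintype.card K := by
    have : 0 < Fintype.card K := by omega
    exact_mod_cast this
  obtain ⟨hCa, hCb⟩ := hC' D₀ D κ ν θ u0 W EB C₂ hD (by omega) hν hθ hu0 hW hEB hC₂
  obtain ⟨z, hz⟩ : ∃ z, z = (n - W) / p := ⟨_, rfl⟩
  obtain ⟨hWn, hzE, hnum⟩ := numbers2 p A n z W EB C₂ (by omega) hC₂ hz (by omega)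
  obtain ⟨u, hu⟩ : ∃ u, u = u0 + (n - W) % p := ⟨_, rfl⟩
  have hup : u < u0 + p := by
    have := Nat.mod_lt (n - W) (show 0 < p by omega)
    omega
  have hsum : p * κ + (u + p * z) = n := by
    have := Nat.div_add_mod (n - W) p
    rw [← hz] at this
    omega
  have hsumP : 3 * ∑ i : Fin k, (2 * (θ / 2 + (i : ℕ) + 1) + 1) + k * θ ≤ u := by
    have h1 : ∑ i : Fin k, (2 * (θ / 2 + (i : ℕ) + 1) + 1) ≤ k * (θ + 2 * k + 1) := by
      refine (Finset.sum_le_card_nsmul _ _ (θ + 2 * k + 1) (fun i _ => ?_)).trans (by simp)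
      have := i.2
      omega
    omega
  obtain ⟨U, hUm, hUd, B, P, T, β, hβ0, hBm, hBd, hrel0, hQB, hcop, hwr, hT0, hPi, hPm, hPodd,
    hPT, hPP, hPM, hPθ⟩ := exists_data_general p hp2 D a b ha0 hb0 haD hbD hab κ ν θ Q V hQm hκ
      (by omega) b (fun _ => 1) (fun i => (mul_one _).symm) hQb (fun i => isCoprime_one_right) hV1 hVν
      hν4 hθ.ge u hsumP
  simp only [mul_one] at hcop hwr
  have hrel : ∀ i, a i * Q ^ p = C (β i) * b i * B i := hrel0
  have hMd : ∀ i, (B i * U).natDegree = (B i).natDegree + u := by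
    intro i
    rw [(hBm i).natDegree_mul hUm, hUd]
  have hNd : ∀ i, (B i * V + C (β i)⁻¹).natDegree ≤ (B i).natDegree + ν := by
    intro i
    refine (natDegree_add_le _ _).trans (max_le ?_ ?_)
    · refine natDegree_mul_le.trans (by rw [hVν])
    · rw [natDegree_C]; omega
  have hwrd : ∀ i, (wr (B i * U) (B i * V + C (β i)⁻¹)).natDegree ≤ 2 * θ + (u0 + p) := by
    intro i
    have h1 := natDegree_wr_le (B i * U) (B i * V + C (β i)⁻¹)
    have h2 := hNd i
    have h3 := hBd i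
    rw [hMd i] at h1
    omega
  have hθEB : θ ≤ EB := by
    have h1 : 1 * (2 * θ + (u0 + p)) ≤ k * (2 * θ + (u0 + p)) := Nat.mul_le_mul_right _ hk
    omega
  have hzpz : z ≤ p * z := Nat.le_mul_of_pos_left _ (by omega)
  have hlarge : ∀ R : K[X], Irreducible R → ¬ R ∣ Q → k < Fintype.card K ^ R.natDegree := by
    intro R hR hRQ
    by_contra h
    apply hRQ
    have h1 : R.natDegree < Fintype.card K ^ R.natDegree := Nat.lt_pow_self hq1
    exact ((dvd_lcmPoly R hR.ne_zero (by omega)).trans hlℓ).trans hlQ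
  have hsumE : ∑ i, (wr (B i * U) (B i * V + C (β i)⁻¹)).natDegree ≤ EB := by
    rw [hEB]
    refine (Finset.sum_le_card_nsmul _ _ (2 * θ + (u0 + p)) (fun i _ => hwrd i)).trans (by simp)
  obtain ⟨E, r, hEm, hEd, hE⟩ := all_parities_strong p hp2 (fun i => B i * U)
    (fun i => B i * V + C (β i)⁻¹) P T (fun i => (hBm i).mul hUm) hcop hwr hT0 hPi hPm hPodd
    hPT hPP hPM (by
      intro i
      have h1 := hPθ i
      have h2 : θ ≤ (P i).natDegree - 1 := by omega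
      have h3 : θ < Fintype.card K ^ θ := Nat.lt_pow_self hq1
      have h4 := Nat.pow_le_pow_right (n := Fintype.card K) (by omega) h2
      have h5 : k ≤ D := by omega
      omega) (by
      intro R hR hRm
      by_cases h : R ∣ Q
      · right
        intro i
        exact dvd_mul_of_dvd_left (h.trans (hQB i)) _
      · exact Or.inl (hlarge R hR h)) z (by omega)
    (by
      intro i
      have h1 := hNd i
      show (B i * V + C (β i)⁻¹).natDegree < (B i * U).natDegree + p * z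
      rw [hMd i]
      omega)
    (by
      intro i
      show (wr (B i * U) (B i * V + C (β i)⁻¹)).natDegree ≤ (B i * U).natDegree + p * z
      have h1 := natDegree_wr_le (B i * U) (B i * V + C (β i)⁻¹)
      have h2 := hNd i
      have h3 := hBd i
      omega)
    (by
      show ∑ i, (wr (B i * U) (B i * V + C (β i)⁻¹)).natDegree ≤ z
      omega) ε
  have hEd' : E.natDegree ≤ EB := by
    rw [hEd]
    exact hsumE
  obtain ⟨L, hL⟩ : ∃ L, L = z - E.natDegree := ⟨_, rfl⟩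
  obtain ⟨m, hm⟩ : ∃ m, m = L / (A + 1) := ⟨_, rfl⟩
  obtain ⟨hm1, hmn, hAm, hnL, hez, hdeg⟩ := hnum E.natDegree L m hEd' hL hm
  obtain ⟨Ω, hΩ⟩ := exists_bad p (fun i => B i * U) (fun i => B i * V + C (β i)⁻¹) hcop
  obtain ⟨S, hS1, hS2⟩ := hS L m (Q * E) E (r %ₘ E + E * X ^ L) Ω hm1 hAm (dvd_mul_left _ _) (by
    intro R hRm hR hRQE
    obtain ⟨h1, h2, h3⟩ := hΩ R hRm hR
    have h4 := hlarge R hR (fun h => hRQE (h.mul_right _))
    exact ⟨h1, by omega, h2⟩)
  let Zf : K[X] → K[X] := fun x => r %ₘ E + E * X ^ L + E * x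
  let Ff : K[X] → K[X] := fun x => Q ^ p * (U * Zf x ^ p + V)
  have hFinj : Function.Injective Ff := by
    intro x y hxy
    have h1 : Q ^ p * (U * Zf x ^ p + V) = Q ^ p * (U * Zf y ^ p + V) := hxy
    have h2 := mul_left_cancel₀ (pow_ne_zero p hQ0) h1
    have h3 := add_right_cancel h2
    have h4 := mul_left_cancel₀ hUm.ne_zero h3
    have h5 : (Zf x - Zf y) ^ p = 0 := by
      rw [sub_pow_char (p := p), h4, sub_self]
    have h6 : Zf x - Zf y = 0 := pow_eq_zero_iff (by omega) |>.mp h5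
    have h7 : r %ₘ E + E * X ^ L + E * x = r %ₘ E + E * X ^ L + E * y := sub_eq_zero.mp h6
    exact mul_left_cancel₀ hEm.ne_zero (add_left_cancel h7)
  refine ⟨S.image Ff, ?_, ?_⟩
  · rw [Finset.card_image_of_injective _ hFinj]
    refine le_trans ?_ hS1
    have h1 : (Fintype.card K : ℝ) ^ (n / p - C' * (D₀ + 1)) ≤
        (Fintype.card K : ℝ) ^ L := by
      exact pow_le_pow_right₀ (by exact_mod_cast hq1.le) (by omega)
    have hm0 : (0 : ℝ) < m := by exact_mod_cast hm1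
    have h2 : (0 : ℝ) < (m : ℝ) ^ k := by positivity
    have h3 : (m : ℝ) ^ k ≤ (n : ℝ) ^ k :=
      pow_le_pow_left₀ hm0.le (by exact_mod_cast hmn) k
    calc c₀ * (Fintype.card K : ℝ) ^ (n / p - C' * (D₀ + 1)) / (n : ℝ) ^ k
        ≤ c₀ * (Fintype.card K : ℝ) ^ (n / p - C' * (D₀ + 1)) / (m : ℝ) ^ k :=
          div_le_div_of_nonneg_left (by positivity) h2 h3
      _ ≤ c₀ * (Fintype.card K : ℝ) ^ L / (m : ℝ) ^ k := by
          apply div_le_div_of_nonneg_right _ h2.le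
          exact mul_le_mul_of_nonneg_left h1 hc₀.le
  · intro f hf
    rw [Finset.mem_image] at hf
    obtain ⟨x, hx, rfl⟩ := hf
    obtain ⟨hxL, hxs⟩ := hS2 x hx
    have hXx : (X ^ L + x : K[X]).Monic := monic_X_pow_add hxL
    have hXd : (X ^ L + x : K[X]).natDegree = L := by
      rw [natDegree_add_eq_left_of_degree_lt (by rw [degree_X_pow]; exact hxL), natDegree_X_pow]
    obtain ⟨hZm, hZd, hZr⟩ := monic_rep hEm r (X ^ L + x) hXx
    have hZe : r %ₘ E + E * (X ^ L + x) = Zf x := by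
      show r %ₘ E + E * (X ^ L + x) = r %ₘ E + E * X ^ L + E * x
      ring
    rw [hZe] at hZm hZd hZr
    have hZd' : (Zf x).natDegree = z := by rw [hZd, hXd]; omega
    have hin : (U * Zf x ^ p + V).Monic ∧ (U * Zf x ^ p + V).natDegree = u + p * z := by
      have h1 := shape p (by omega) U V (Zf x) z hUm hZm hZd' (by rw [hVν, hUd]; omega)
      rw [hUd] at h1
      exact h1
    have hgm : (Q ^ p * (U * Zf x ^ p + V)).Monic := (hQm.pow p).mul hin.1
    have hgd : (Q ^ p * (U * Zf x ^ p + V)).natDegree = n := by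
      rw [(hQm.pow p).natDegree_mul hin.1, hQm.natDegree_pow, hκ, hin.2, hsum]
    refine ⟨hgm, hgd, ?_⟩
    intro i
    obtain ⟨h1, h2, h3⟩ := hE (Zf x) hZm hZd' hZr i
    have hu1 : IsUnit (C (β i)) := isUnit_C.mpr (IsUnit.mk0 _ (hβ0 i))
    have hCC : C (β i) * C (β i)⁻¹ = (1 : K[X]) := by
      rw [← C_mul, mul_inv_cancel₀ (hβ0 i), C_1]
    have hsq := sqf_of_coprime p (B i * U) (B i * V + C (β i)⁻¹) (Zf x) h1
    obtain ⟨G, hG⟩ : ∃ G, G = C (β i) * (B i * U * Zf x ^ p + (B i * V + C (β i)⁻¹)) := ⟨_, rfl⟩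
    have hval : a i * Ff x + b i = b i * G := by
      show a i * (Q ^ p * (U * Zf x ^ p + V)) + b i = _
      rw [hG]
      linear_combination (U * Zf x ^ p + V) * hrel i - (b i) * hCC
    have hsqv : Squarefree G := by
      rw [hG]
      exact hsq.squarefree_of_dvd ((hu1.mul_left_dvd).mpr dvd_rfl)
    have hcopG : IsCoprime (b i) G := by
      have hB : b i ∣ B i := (hQb i).trans (hQB i)
      obtain ⟨w, hw⟩ := hB
      refine ⟨-(C (β i) * w * (U * Zf x ^ p + V)), 1, ?_⟩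
      rw [hG]
      linear_combination (C (β i) * (U * Zf x ^ p + V)) * hw + hCC
    have hbig : ∀ R : K[X], Irreducible R → R ∣ G → n ≤ p * (A + 2) * R.natDegree := by
      rw [hG]
      intro R hR hRd
      obtain ⟨R', hR'm, hR'i, hR'R⟩ := exists_monic_irreducible_factor R hR.not_isUnit
      have hR'd : R' ∣ B i * U * Zf x ^ p + (B i * V + C (β i)⁻¹) :=
        (hu1.dvd_mul_left).mp (hR'R.trans hRd)
      have hle : R'.natDegree ≤ R.natDegree := natDegree_le_of_dvd hR'R hR.ne_zero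
      have hlt : m < R'.natDegree := by
        by_contra hcon
        by_cases hQE : R' ∣ Q * E
        · rcases hR'i.prime.dvd_or_dvd hQE with h4 | h4
          · have h5 : R' ∣ B i * U := dvd_mul_of_dvd_left (h4.trans (hQB i)) _
            have h6 : R' ∣ B i * V + C (β i)⁻¹  :=
              (dvd_add_right (h5.mul_right _)).mp hR'd
            exact hR'i.not_isUnit ((hcop i).isUnit_of_dvd' h5 h6)
          · exact hR'i.not_isUnit (h3.isUnit_of_dvd' hR'd h4)
        · have h4 := (hΩ R' hR'm hR'i).2.2 (Zf x) (fun s hs => by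
            exact hxs R' hR'm hR'i (by omega) hQE s hs) i
          exact h4 hR'd
      exact (hdeg _ hlt).trans (Nat.mul_le_mul_left _ hle)
    refine ⟨G, hval, hsqv, hcopG, hbig, ?_, ?_⟩
    · have h6 := om_mul_le hsqv.ne_zero n (p * (A + 2)) hbig
      have hfd : (Ff x).natDegree ≤ n := hgd.le
      have hd : (a i * Ff x + b i).natDegree ≤ n + D₀ := by
        have h7 := (habD i).1
        have h8 := (habD i).2
        refine (natDegree_add_le _ _).trans (max_le (natDegree_mul_le.trans ?_) ?_)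
        · omega
        · omega
      have hdG : G.natDegree ≤ n + D₀ := by
        rw [hval, natDegree_mul (hb0 i) hsqv.ne_zero] at hd
        omega
      have h7 : p * (A + 2) * G.natDegree ≤ p * (A + 2) * (n + D₀) :=
        Nat.mul_le_mul_left _ hdG
      by_contra hcon
      have h8 : (p * (A + 2) + 1) * n ≤ om G * n :=
        Nat.mul_le_mul_right _ (by omega)
      have e1 : (p * (A + 2) + 1) * n = p * (A + 2) * n + n := by ring
      have e2 : p * (A + 2) * (n + D₀) = p * (A + 2) * n + p * (A + 2) * D₀ := by ring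
      omega
    · rw [hG, om_mul hu1.ne_zero hsq.ne_zero, om_of_isUnit hu1, zero_add]
      exact h2

end Pool.Agent.H617.SP
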