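import Mathlib
import Pool.Agent.H617.SP.J7
import Pool.Agent.H617.SP.H

/-!
Systems of linear forms and intervals: all parities at values with boundedly many prime factors.
-/

namespace Pool.Agent.H617.SP

set_option linter.unusedSectionVars false

open Polynomial

theorem translated_ap (p : ℕ) [hp : Fact p.Prime] (hp2 : p ≠ 2) (K : Type) [Field K] [Fintype K]
    [CharP K p] (k : ℕ) (hk : 1 ≤ k) :
    ∃ (R C' : ℕ) (δ : ℝ), 0 < δ ∧ ∀ D n : ℕ, C' * (D + 1) ≤ n → ∀ (a b : Fin k → K[X])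
      (c : K[X]), (∀ i, a i ≠ 0) → (∀ i j, i ≠ j → a i * b j - a j * b i ≠ 0) →
      c.natDegree ≤ D →
      (∀ i, (a i).natDegree ≤ D ∧ (a i * c + b i).natDegree ≤ D ∧ a i * c + b i ≠ 0) →
      ∀ ε : Fin k → ℕ, ∃ S : Finset K[X],
        δ * (Fintype.card K : ℝ) ^ (n / p - C' * (D + 1)) / (n : ℝ) ^ k ≤ S.card ∧
        ∀ f ∈ S, f.Monic ∧ f.natDegree = n ∧ ∀ i, ∃ G, a i * f + b i = (a i * c + b i) * G ∧
          Squarefree G ∧ IsCoprime (a i * c + b i) G ∧
          (∀ P : K[X], Irreducible P → P ∣ G → n ≤ R * P.natDegree) ∧ om G ≤ R ∧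
          (-1 : K) ^ om G = (-1) ^ ε i := by
  classical
  obtain ⟨R, C₁, δ, hδ, hR⟩ := almost_prime_fixed p hp2 K k hk
  have hq1 : 1 < Fintype.card K := Fintype.one_lt_card
  refine ⟨R, (C₁ + 1) * k, δ, hδ, ?_⟩
  intro D n hn a b c ha0 hab hcD hD ε
  have e1 : (C₁ + 1) * (k * D + 1) ≤ (C₁ + 1) * k * (D + 1) := by
    rw [mul_assoc]
    apply Nat.mul_le_mul_left
    nlinarith
  have e2 : C₁ * (k * D + 1) ≤ (C₁ + 1) * (k * D + 1) := Nat.mul_le_mul_right _ (by omega)
  have e3 : (C₁ + 1) * (k * D + 1) = C₁ * (k * D + 1) + (k * D + 1) := by ring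
  have e4 : 1 * D ≤ k * D := Nat.mul_le_mul_right _ hk
  have hnD : D < n := by omega
  obtain ⟨S, hS1, hS2⟩ := hR D n (by omega) a (fun i => a i * c + b i) ha0 (fun i => (hD i).2.2)
    (fun i j hij => by
      have := hab i j hij
      have e : a i * (a j * c + b j) - a j * (a i * c + b i) = a i * b j - a j * b i := by ring
      show a i * (a j * c + b j) - a j * (a i * c + b i) ≠ 0
      rw [e]; exact this) (fun i => ⟨(hD i).1, (hD i).2.1⟩) ε
  refine ⟨S.image (fun f => f + c), ?_, ?_⟩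
  · rw [Finset.card_image_of_injective _ (add_left_injective c)]
    refine le_trans ?_ hS1
    apply div_le_div_of_nonneg_right _ (by positivity)
    apply mul_le_mul_of_nonneg_left _ hδ.le
    exact pow_le_pow_right₀ (by exact_mod_cast hq1.le) (by omega)
  · intro f hf
    rw [Finset.mem_image] at hf
    obtain ⟨g, hg, rfl⟩ := hf
    obtain ⟨h3, h4, h5⟩ := hS2 g hg
    have hcg : c.natDegree < g.natDegree := by omega
    refine ⟨?_, ?_, ?_⟩
    · apply h3.add_of_left
      rw [degree_eq_natDegree h3.ne_zero]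
      by_cases hc : c = 0
      · rw [hc, degree_zero]; exact WithBot.bot_lt_coe _
      · rw [degree_eq_natDegree hc]
        exact_mod_cast hcg
    · rw [natDegree_add_eq_left_of_natDegree_lt hcg, h4]
    · intro i
      obtain ⟨G, hG1, hG2, hG3, hG4, hG5, hG6⟩ := h5 i
      refine ⟨G, ?_, hG2, hG3, hG4, hG5, hG6⟩
      rw [← hG1]; ring

lemma om_le_natDegree {K : Type*} [Field K] {F : K[X]} (hF : F ≠ 0) : om F ≤ F.natDegree := by
  have h := om_mul_le hF 1 1 (fun P hP _ => by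
    have := hP.natDegree_pos
    omega)
  omega

/-- Intervals. -/
theorem intervals_ap (p : ℕ) [hp : Fact p.Prime] (hp2 : p ≠ 2) (K : Type) [Field K] [Fintype K]
    [CharP K p] (m : ℕ) :
    ∃ (R N : ℕ) (δ : ℝ), 0 < δ ∧ ∀ n : ℕ, N ≤ n → ∀ ε : K[X] → ℕ,
      ∃ S : Finset K[X],
        δ * (Fintype.card K : ℝ) ^ (n / p) / (n : ℝ) ^ (Fintype.card K ^ m) ≤ S.card ∧
        ∀ f ∈ S, f.Monic ∧ f.natDegree = n ∧ ∀ h : K[X], h.degree < (m : WithBot ℕ) →
          f + h ≠ 0 ∧ (-1 : ℤ) ^ om (f + h) = (-1) ^ ε h ∧ om (f + h) ≤ R ∧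
          ∃ G, f + h = (X ^ m + h) * G ∧ Squarefree G ∧
            ∀ P : K[X], Irreducible P → P ∣ G → n ≤ R * P.natDegree := by
  classical
  have h2 : (2 : K) ≠ 0 := two_ne p hp2
  have hq1 : 1 < Fintype.card K := Fintype.one_lt_card
  obtain ⟨R, C₁, δ, hδ, hR⟩ := translated_ap p hp2 K (Fintype.card K ^ m)
    (Nat.one_le_pow _ _ (by omega))
  obtain ⟨e⟩ : Nonempty (Fin (Fintype.card K ^ m) ≃ (Fin m → K)) := by
    apply Fintype.card_eq.mp
    simp
  have hmon : ∀ v : Fin m → K, (Pool.Agent.H617.PF.poly m v).Monic :=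
    Pool.Agent.H617.PF.poly_monic m
  have hs : ∀ i, (1 : K[X]) * X ^ m + (Pool.Agent.H617.PF.poly m (e i) - X ^ m) =
      Pool.Agent.H617.PF.poly m (e i) := by
    intro i; ring
  have hp1 : 1 ≤ p := hp.out.one_le
  have hqr : (0 : ℝ) < Fintype.card K := by exact_mod_cast (by omega : 0 < Fintype.card K)
  refine ⟨R + m, p * (C₁ * (m + 1)), δ / (Fintype.card K : ℝ) ^ (C₁ * (m + 1)),
    by positivity, ?_⟩
  intro n hn ε
  have hn1 : C₁ * (m + 1) ≤ n / p := by
    rw [Nat.le_div_iff_mul_le (by omega), mul_comm]; exact hn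
  have hn2 : C₁ * (m + 1) ≤ n := hn1.trans (Nat.div_le_self _ _)
  obtain ⟨S, hS1, hS2⟩ := hR m n hn2 (fun _ : Fin (Fintype.card K ^ m) => (1 : K[X]))
    (fun i => Pool.Agent.H617.PF.poly m (e i) - X ^ m) (X ^ m)
    (fun _ => one_ne_zero)
    (by
      intro i j hij h
      apply hij
      apply e.injective
      apply Pool.Agent.H617.PF.poly_injective m
      linear_combination -h)
    (by rw [natDegree_X_pow])
    (fun i => ⟨by rw [natDegree_one]; omega,
      by rw [hs, Pool.Agent.H617.PF.poly_natDegree], by rw [hs]; exact (hmon _).ne_zero⟩)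
    (fun i => om (Pool.Agent.H617.PF.poly m (e i)) +
      ε (Pool.Agent.H617.PF.poly m (e i) - X ^ m))
  refine ⟨S, ?_, ?_⟩
  · refine le_trans (le_of_eq ?_) hS1
    have h3 : (Fintype.card K : ℝ) ^ (n / p) =
        (Fintype.card K : ℝ) ^ (n / p - C₁ * (m + 1)) * (Fintype.card K : ℝ) ^ (C₁ * (m + 1)) := by
      rw [← pow_add]
      congr 1
      omega
    rw [h3]
    field_simp
  · intro f hf
    obtain ⟨h3, h4, h5⟩ := hS2 f hf
    refine ⟨h3, h4, ?_⟩
    intro h hh
    obtain ⟨i, hi⟩ := e.surjective (fun i => h.coeff i)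
    obtain ⟨G, hG1, hG2, hG3, hG4, hG5, hG6⟩ := h5 i
    rw [hs, hi, poly_coeff m h hh] at hG1
    rw [hi, poly_coeff m h hh] at hG6
    have hX0 : X ^ m + h ≠ 0 := by
      rw [← poly_coeff m h hh]; exact (hmon _).ne_zero
    have hXd : (X ^ m + h).natDegree = m := by
      rw [← poly_coeff m h hh, Pool.Agent.H617.PF.poly_natDegree]
    have e1 : f + h = (X ^ m + h) * G := by linear_combination hG1
    have hom : om (f + h) = om (X ^ m + h) + om G := by
      rw [e1, om_mul hX0 hG2.ne_zero]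
    refine ⟨?_, ?_, ?_, G, e1, hG2, ?_⟩
    · rw [e1]; exact mul_ne_zero hX0 hG2.ne_zero
    · rw [hom, pow_add, parity_int h2 hG6, show X ^ m + h - X ^ m = h by ring, pow_add,
        ← mul_assoc, ← mul_pow]
      simp
    · have := om_le_natDegree hX0
      omega
    · intro P hP hPG
      exact (hG4 P hP hPG).trans (Nat.mul_le_mul_right _ (by omega))

end Pool.Agent.H617.SP
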